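import Pool.Agent.H329R3.PM.Stmts

open MeasureTheory Set Filter Topology
open scoped RealInnerProductSpace

namespace Pool.Agent.H329R3.PM

/-- an everywhere differentiable function with locally integrable gradient: the gradient is the
distributional gradient -/
theorem dist_grad {N : ℕ} {f : E N → ℝ} (hf : Differentiable ℝ f)
    (hG : LocallyIntegrable (gradient f)) (ψ : E N → ℝ) (hψ : ContDiff ℝ 1 ψ)
    (hc : HasCompactSupport ψ) (v : E N) :
    ∫ x, f x * fderiv ℝ ψ x v = - ∫ x, ⟪gradient f x, v⟫ * ψ x := by
  have hinner : ∀ x, ⟪gradient f x, v⟫ = fderiv ℝ f x v := by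
    intro x
    unfold gradient
    rw [InnerProductSpace.toDual_symm_apply]
  have hfc : Continuous f := hf.continuous
  have hψc : Continuous ψ := hψ.continuous
  have hψ' : Continuous (fun x => fderiv ℝ ψ x v) :=
    (hψ.continuous_fderiv (by norm_num)).clm_apply continuous_const
  have hc' : HasCompactSupport (fun x => fderiv ℝ ψ x v) := by
    have := hc.fderiv (𝕜 := ℝ)
    exact this.comp_left (g := fun L : E N →L[ℝ] ℝ => L v) (by simp)
  have i1 : Integrable (fun x => f x * ψ x) :=
    (hfc.mul hψc).integrable_of_hasCompactSupport hc.mul_left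
  have i2 : Integrable (fun x => f x * fderiv ℝ ψ x v) :=
    (hfc.mul hψ').integrable_of_hasCompactSupport hc'.mul_left
  have hGv : LocallyIntegrable (fun x => ⟪gradient f x, v⟫) := by
    intro x
    obtain ⟨U, hU, hi⟩ := hG x
    refine ⟨U, hU, ?_⟩
    exact hi.inner_const v
  have i3 : Integrable (fun x => ⟪gradient f x, v⟫ * ψ x) := by
    have h1 : Integrable (fun x => ψ x • ⟪gradient f x, v⟫) :=
      hGv.integrable_smul_left_of_hasCompactSupport hψc hc
    refine h1.congr (Eventually.of_forall fun x => ?_)
    simp only [smul_eq_mul]; ring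
  have i3' : Integrable (fun x => fderiv ℝ f x v * ψ x) := by
    refine i3.congr (Eventually.of_forall fun x => ?_)
    simp only [hinner]
  have h := integral_mul_fderiv_eq_neg_fderiv_mul_of_integrable (v := v) i3' i2 i1 (fun x _ => hf x)
    (fun x _ => hψ.differentiable (by norm_num) x)
  rw [h]
  congr 1
  refine integral_congr_ae (Eventually.of_forall fun x => ?_)
  simp only [hinner]

end Pool.Agent.H329R3.PM
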