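import Mathlib

open MeasureTheory Set Filter Topology
open scoped RealInnerProductSpace

namespace Pool.Agent.H329R3.PM

/-! # MP_4eb066_an: nonlocal-pressure porous medium equation, a compactly supported weak solution -/

abbrev E (N : ℕ) := EuclideanSpace ℝ (Fin N)

/-- `c(N,s) = π^{N/2-2s} Γ(s) / Γ((N-2s)/2)` -/
noncomputable def cNs (N : ℕ) (s : ℝ) : ℝ :=
  Real.pi ^ ((N : ℝ) / 2 - 2 * s) * Real.Gamma s / Real.Gamma (((N : ℝ) - 2 * s) / 2)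

/-- the Riesz kernel `K_s(x) = c(N,s)⁻¹ |x|^{-(N-2s)}` -/
noncomputable def Ks (N : ℕ) (s : ℝ) (x : E N) : ℝ := (cNs N s)⁻¹ * ‖x‖ ^ (-((N : ℝ) - 2 * s))

/-- the potential `K_s * f` -/
noncomputable def pot (N : ℕ) (s : ℝ) (f : E N → ℝ) (x : E N) : ℝ := ∫ y, Ks N s (x - y) * f y

/-- test functions: `C¹` on space-time, compactly supported in `x` for each `t ∈ (0,T)`, vanishing
near `t = T` -/
structure TestFun (N : ℕ) (T : ℝ) (φ : E N × ℝ → ℝ) : Prop where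
  smooth : ContDiff ℝ 1 φ
  compact : ∀ t ∈ Ioo 0 T, HasCompactSupport (fun x : E N => φ (x, t))
  vanish : ∃ δ > 0, ∀ t ∈ Icc (T - δ) T, ∀ x : E N, φ (x, t) = 0

/-- weak solutions of `u_t = ∇·(u^{m-1} ∇ K_s[u])` on `ℝ^N × (0,T)`, `u(·,0) = u₀`; the gradient of
the potential is required to exist in the classical sense at every point. -/
structure IsWeakSol (N : ℕ) (m s T : ℝ) (u₀ : E N → ℝ) (u : E N → ℝ → ℝ) : Prop where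
  nonneg : ∀ x, ∀ t ∈ Ioo 0 T, 0 ≤ u x t
  int_u : Integrable (fun z : E N × ℝ => u z.1 z.2) (volume.prod (volume.restrict (Ioo 0 T)))
  pot_int : ∀ t ∈ Ioo 0 T, ∀ x, Integrable (fun y => Ks N s (x - y) * u y t)
  pot_diff : ∀ t ∈ Ioo 0 T, Differentiable ℝ (pot N s (fun y => u y t))
  grad_int : ∀ R : ℝ, Integrable
    (fun z : E N × ℝ => gradient (pot N s (fun y => u y z.2)) z.1)
    ((volume.restrict (Metric.ball 0 R)).prod (volume.restrict (Ioo 0 T)))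
  flux_int : Integrable
    (fun z : E N × ℝ => (u z.1 z.2) ^ (m - 1) • gradient (pot N s (fun y => u y z.2)) z.1)
    (volume.prod (volume.restrict (Ioo 0 T)))
  weak : ∀ φ : E N × ℝ → ℝ, TestFun N T φ →
    (∫ t in Ioo 0 T, ∫ x, u x t * deriv (fun t' => φ (x, t')) t)
    - (∫ t in Ioo 0 T, ∫ x, (u x t) ^ (m - 1) *
        ⟪gradient (pot N s (fun y => u y t)) x, gradient (fun x' => φ (x', t)) x⟫)
    + ∫ x, u₀ x * φ (x, 0) = 0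

/-- infinite speed of propagation -/
def InfiniteSpeed (N : ℕ) (T : ℝ) (u : E N → ℝ → ℝ) : Prop :=
  ∀ t ∈ Ioo 0 T, ∀ R > 0, volume {x : E N | R ≤ ‖x‖ ∧ 0 < u x t} ≠ 0

/-! ## the radial kernel -/

/-- `sgn(z) |z|^{-1/2}` -/
noncomputable def sg (z : ℝ) : ℝ := z / (|z| * √|z|)

noncomputable def kap (r y : ℝ) : ℝ :=
  √(r + y) - √|r - y| - r / 2 * (1 / √(r + y) - sg (r - y))

/-- radial kernel: `-4π ∫ kk r y w(y) dy · x` is the gradient of `∫ |x-y|^{-3/2} w(|y|) dy`,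
`r = |x|` -/
noncomputable def kk (r y : ℝ) : ℝ := y * kap r y / r ^ 3

/-- the operator `S` for a kernel `k` on `(0,1]` -/
noncomputable def Sop (k : ℝ → ℝ → ℝ) (w : ℝ → ℝ) (r : ℝ) : ℝ := ∫ y in Ioc (0 : ℝ) 1, k r y * w y

/-- bounded nonnegative measurable profiles on `(0,1]` -/
structure Prof (w : ℝ → ℝ) : Prop where
  meas : Measurable w
  nonneg : ∀ y, 0 ≤ w y
  bdd : ∃ B, ∀ y, w y ≤ B
  supp : ∀ y, y ∉ Ioc (0 : ℝ) 1 → w y = 0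

/-- the unnormalised potential of `w(|x|)` -/
noncomputable def PP (w : ℝ → ℝ) (x : E 3) : ℝ := ∫ y : E 3, ‖x - y‖ ^ (-(3 / 2) : ℝ) * w ‖y‖

/-! ## tasks -/

/-- zero mean on the `n` cells of `(a,1]`, bounded by one, supported in `(a,1]` -/
structure Osc (a : ℝ) (n : ℕ) (h : ℝ → ℝ) : Prop where
  meas : Measurable h
  bdd : ∀ y, |h y| ≤ 1
  supp : ∀ y, y ∉ Ioc a 1 → h y = 0
  cell : ∀ i : ℕ, i < n →
    ∫ y in Ioc (a + (1 - a) * i / n) (a + (1 - a) * (i + 1) / n), h y = 0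

/-- mixing property of a kernel -/
def Mixing (k : ℝ → ℝ → ℝ) : Prop :=
  ∀ a ∈ Ioo (0 : ℝ) 1, ∀ δ > 0, ∃ n : ℕ, 0 < n ∧ ∀ h : ℝ → ℝ, Osc a n h →
    ∀ r ∈ Ioc (0 : ℝ) 1, |Sop k h r| ≤ δ

/-- admissible kernels -/
structure Ker (k : ℝ → ℝ → ℝ) : Prop where
  meas : Measurable (fun p : ℝ × ℝ => k p.1 p.2)
  int : ∀ r ∈ Ioc (0 : ℝ) 1, IntegrableOn (k r) (Ioc (0 : ℝ) 1)
  mix : Mixing k

/-- state of the iteration -/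
structure Good (k : ℝ → ℝ → ℝ) (m M : ℝ) (w : ℝ → ℝ) : Prop where
  prof : Prof w
  lower : ∀ r ∈ Ioc (0 : ℝ) 1, m ≤ Sop k w r
  upper : ∀ r ∈ Ioc (0 : ℝ) 1, Sop k w r ≤ M
  sub : ∀ r ∈ Ioc (0 : ℝ) 1, w r ≤ (Sop k w r) ^ 2

/-- Rad: zonal integration in `ℝ³`. -/
def Rad : Prop :=
  ∀ w : ℝ → ℝ, Prof w → ∀ x : E 3,
    Integrable (fun y : E 3 => ‖x - y‖ ^ (-(3 / 2) : ℝ) * w ‖y‖) ∧
    (x ≠ 0 → PP w x = (4 * Real.pi / ‖x‖) *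
      ∫ y in Ioc (0 : ℝ) 1, (y * w y) * (√(‖x‖ + y) - √|‖x‖ - y|)) ∧
    (x = 0 → PP w x = 4 * Real.pi * ∫ y in Ioc (0 : ℝ) 1, √y * w y)

/-- Der: differentiation under the integral, kernels `√|r-y|`, `√(r+y)`. -/
def Der : Prop :=
  ∀ h : ℝ → ℝ, Measurable h → (∃ B, ∀ y, |h y| ≤ B) → ∀ r : ℝ, 0 < r →
    HasDerivAt (fun r => ∫ y in Ioc (0 : ℝ) 1, h y * √|r - y|)
      (∫ y in Ioc (0 : ℝ) 1, h y * (sg (r - y) / 2)) r ∧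
    HasDerivAt (fun r => ∫ y in Ioc (0 : ℝ) 1, h y * √(r + y))
      (∫ y in Ioc (0 : ℝ) 1, h y * (1 / √(r + y) / 2)) r

/-- KInt: measurability and integrability of the kernel. -/
def KInt : Prop :=
  Measurable (fun p : ℝ × ℝ => kk p.1 p.2) ∧
  (∀ r : ℝ, IntegrableOn (fun y => sg (r - y)) (Ioc (0 : ℝ) 1)) ∧
  (∀ r : ℝ, 0 < r → IntegrableOn (kk r) (Ioc (0 : ℝ) 1))

/-- the gradient of the potential at `x ≠ 0` -/
def Grad : Prop :=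
  ∀ w : ℝ → ℝ, Prof w → ∀ x : E 3, x ≠ 0 →
    HasGradientAt (PP w) ((-(4 * Real.pi) * Sop kk w ‖x‖) • x) x

/-- the gradient at the origin is zero -/
def Grad0 : Prop := ∀ w : ℝ → ℝ, Prof w → HasGradientAt (PP w) 0 (0 : E 3)

/-- bound for `r ≥ 1` -/
def Outer : Prop := ∀ w : ℝ → ℝ, Prof w → ∃ C, ∀ r, 1 ≤ r → |Sop kk w r| * r ≤ C

/-- bounds for `S[1]` -/
def One : Prop :=
  ∀ r ∈ Ioc (0 : ℝ) 1, 3 / 10 ≤ ∫ y in Ioc (0 : ℝ) 1, kk r y ∧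
    ∫ y in Ioc (0 : ℝ) 1, kk r y ≤ 3 / 2

/-- abstract mixing lemma: (jointly continuous) + (small in `L¹`) -/
def MixAbs : Prop :=
  ∀ (a δ : ℝ) (R : Set ℝ) (k k₁ k₂ : ℝ → ℝ → ℝ), a ∈ Ioo (0 : ℝ) 1 → 0 < δ → IsCompact R →
    ContinuousOn (fun p : ℝ × ℝ => k₁ p.1 p.2) (R ×ˢ Icc a 1) →
    (∀ r ∈ R, 0 < r → IntegrableOn (k₂ r) (Ioc a 1) ∧ ∫ y in Ioc a 1, |k₂ r y| ≤ δ / 2) →
    (∀ r ∈ R, 0 < r → ∀ y ∈ Ioc a 1, k r y = k₁ r y + k₂ r y) →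
    ∃ n₀ : ℕ, ∀ n : ℕ, n₀ ≤ n → 0 < n → ∀ h : ℝ → ℝ, Osc a n h →
      ∀ r ∈ R, 0 < r → |Sop k h r| ≤ δ

/-- selection lemma -/
def Sel : Prop :=
  ∀ (a : ℝ) (n : ℕ), a ∈ Ioo (0 : ℝ) 1 → 0 < n → ∀ f g : ℝ → ℝ, Measurable f → Measurable g →
    (∀ y, 0 ≤ f y) → (∀ y, f y ≤ g y) → (∃ B, ∀ y, g y ≤ B) →
    ∃ S : Set ℝ, MeasurableSet S ∧ S ⊆ Ioc a 1 ∧ ∀ i : ℕ, i < n →
      ∫ y in Ioc (a + (1 - a) * i / n) (a + (1 - a) * (i + 1) / n), S.indicator g y =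
      ∫ y in Ioc (a + (1 - a) * i / n) (a + (1 - a) * (i + 1) / n), f y

/-- one step of the iteration -/
def Step : Prop :=
  ∀ k : ℝ → ℝ → ℝ, Ker k → ∀ m M ε a : ℝ, 0 < m → 0 < ε → ε ≤ 1 → a ∈ Ioo (0 : ℝ) 1 →
    ∀ w, Good k m M w → ∃ w', Good k m (M * (1 + 2 * ε)) w' ∧
      (∀ r ∈ Ioc (0 : ℝ) 1, |Sop k w' r - Sop k w r| ≤ 2 * ε * Sop k w r) ∧
      ∀ y ∈ Ioc a 1, w' y = 0 ∨ (0 < w y ∧ w' y = (1 + ε) * (Sop k w y) ^ 2)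

/-- the abstract iteration theorem -/
def Iter : Prop :=
  ∀ k : ℝ → ℝ → ℝ, Ker k →
    (∃ c C : ℝ, 0 < c ∧ ∀ r ∈ Ioc (0 : ℝ) 1, c ≤ ∫ y in Ioc (0 : ℝ) 1, k r y ∧
      ∫ y in Ioc (0 : ℝ) 1, k r y ≤ C) →
    ∃ w : ℝ → ℝ, Prof w ∧ ∃ c C : ℝ, 0 < c ∧ (∀ r ∈ Ioc (0 : ℝ) 1, c ≤ Sop k w r ∧ Sop k w r ≤ C) ∧
      ∀ y ∈ Ioc (0 : ℝ) 1, w y = 0 ∨ w y = (Sop k w y) ^ 2

/-- the scaled potential (scaling of the Riesz kernel) and integrability statements for the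
self-similar function -/
noncomputable def selfSim (F : E 3 → ℝ) (x : E 3) (t : ℝ) : ℝ :=
  (1 + t) ^ (-(3 / 2) : ℝ) * F ((1 + t) ^ (-(1 / 2) : ℝ) • x)

/-- hypotheses on a self-similar profile -/
structure Profile (F : E 3 → ℝ) (G : E 3 → E 3) : Prop where
  measF : Measurable F
  nonneg : ∀ x, 0 ≤ F x
  bdd : ∃ B, ∀ x, F x ≤ B
  supp : ∀ x, 1 < ‖x‖ → F x = 0
  measG : Measurable G
  bddG : ∃ B, ∀ x, ‖G x‖ ≤ B
  int : ∀ x, Integrable (fun y => Ks 3 (3 / 4) (x - y) * F y)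
  grad : ∀ x, HasGradientAt (pot 3 (3 / 4) F) (G x) x
  rel : ∀ x, (F x) ^ ((3 / 2 : ℝ) - 1) • G x = (-(1 / 2) * F x) • x

/-- scaling: potential and gradient of the self-similar function -/
def Scale : Prop :=
  ∀ (F : E 3 → ℝ) (G : E 3 → E 3), Profile F G → ∀ t : ℝ, 0 ≤ t →
    (∀ x, Integrable (fun y => Ks 3 (3 / 4) (x - y) * selfSim F y t)) ∧
    (∀ x, HasGradientAt (pot 3 (3 / 4) (fun y => selfSim F y t))
      ((1 + t) ^ (-(5 / 4) : ℝ) • G ((1 + t) ^ (-(1 / 2) : ℝ) • x)) x)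

/-- the weak identity after the change of variables, `C¹` test functions vanishing near `T` -/
def Chain : Prop :=
  ∀ (F : E 3 → ℝ), Measurable F → (∀ x, 0 ≤ F x) → (∃ B, ∀ x, F x ≤ B) →
    (∀ x, 1 < ‖x‖ → F x = 0) → ∀ T > 0, ∀ φ : E 3 × ℝ → ℝ, TestFun 3 T φ →
    (∫ t in Ioo 0 T, ∫ x : E 3, selfSim F x t * deriv (fun t' => φ (x, t')) t)
    - (∫ t in Ioo 0 T, ∫ x : E 3, (-(1 / 2) * (1 + t) ^ (-2 : ℝ) *
        F ((1 + t) ^ (-(1 / 2) : ℝ) • x)) *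
        ⟪(1 + t) ^ (-(1 / 2) : ℝ) • x, gradient (fun x' => φ (x', t)) x⟫)
    + ∫ x, F x * φ (x, 0) = 0

/-- from a profile with the pointwise relation to a weak solution -/
def Weak : Prop :=
  ∀ (F : E 3 → ℝ) (G : E 3 → E 3), Profile F G →
    ∀ T > 0, IsWeakSol 3 (3 / 2) (3 / 4) T F (selfSim F)

/-! ### the tasks (each one is to be proved as stated, independently of the others) -/

def TaskRad : Prop := Rad
def TaskDer : Prop := Der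
def TaskKInt : Prop := KInt
def TaskGrad : Prop := Rad → Der → KInt → Grad
def TaskGrad0 : Prop := Rad → Grad0
def TaskOuter : Prop := Outer
def TaskOne : Prop := KInt → One
def TaskMixAbs : Prop := MixAbs
def TaskMix : Prop := MixAbs → KInt → Mixing kk
def TaskSel : Prop := Sel
def TaskStep : Prop := Sel → Step
def TaskIter : Prop := Step → Iter
def TaskScale : Prop := Scale
def TaskChain : Prop := Chain
def TaskWeak : Prop := Scale → Chain → Weak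

/-! ## final statement -/

/-- Question Q1 of MP_4eb066_an. -/
def Q1 : Prop :=
  ∀ (N : ℕ) (m s T : ℝ), 2 ≤ N → m ∈ Ioo 1 2 → s ∈ Ioo 0 1 → 0 < T →
    ∀ (u₀ : E N → ℝ) (u : E N → ℝ → ℝ),
      Measurable u₀ → (∀ x, 0 ≤ u₀ x) → (∃ C, ∀ x, u₀ x ≤ C) → HasCompactSupport u₀ →
      ¬ (u₀ =ᵐ[volume] 0) → (∃ C, ∀ x, ∀ t ∈ Ioo 0 T, u x t ≤ C) →
      IsWeakSol N m s T u₀ u → InfiniteSpeed N T u

def FinalStmt : Prop :=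
  (∃ (u₀ : E 3 → ℝ) (u : E 3 → ℝ → ℝ), Measurable u₀ ∧ (∀ x, 0 ≤ u₀ x) ∧ (∃ C, ∀ x, u₀ x ≤ C) ∧
    (∀ x, 1 < ‖x‖ → u₀ x = 0) ∧ ¬ (u₀ =ᵐ[volume] 0) ∧
    (∃ C, ∀ x t, 0 ≤ t → u x t ≤ C) ∧ (∀ x t, 0 ≤ t → √(1 + t) < ‖x‖ → u x t = 0) ∧
    ∀ T > 0, IsWeakSol 3 (3 / 2) (3 / 4) T u₀ u) ∧ ¬ Q1

end Pool.Agent.H329R3.PM
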