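import Mathlib
import Pool.Agent.H329R3.PM.Stmts

/-! Task Rad of project H329-PME (helper873): zonal integration in `ℝ³`.
The lemmas `cn`, `peel`, `radial` are copied from `Pool.Agent.Helper749.Bi.SphLaw`. -/

set_option autoImplicit false

open MeasureTheory Metric Set Filter Topology
open scoped ENNReal NNReal RealInnerProductSpace

namespace Pool.Agent.H329R3.PM.TRad

variable {m : ℕ}

/-- prepend a coordinate -/
noncomputable def cn (s : ℝ) (z : E m) : E (m + 1) :=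
  WithLp.toLp 2 (Fin.cons s z.ofLp : Fin (m + 1) → ℝ)

@[simp] theorem cn_zero (s : ℝ) (z : E m) : (cn s z) 0 = s := rfl

@[simp] theorem cn_succ (s : ℝ) (z : E m) (i : Fin m) : (cn s z) i.succ = z i := rfl

theorem cn_norm_sq (s : ℝ) (z : E m) : ‖cn s z‖ ^ 2 = s ^ 2 + ‖z‖ ^ 2 := by
  rw [EuclideanSpace.real_norm_sq_eq, EuclideanSpace.real_norm_sq_eq, Fin.sum_univ_succ]
  simp

theorem peel {f : E (m + 1) → ℝ≥0∞} (hf : Measurable f) :
    ∫⁻ x, f x = ∫⁻ s : ℝ, ∫⁻ z : E m, f (cn s z) := by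
  have h1 := (PiLp.volume_preserving_toLp (Fin (m + 1))).lintegral_comp hf
  rw [← h1]
  have h2 := (volume_preserving_piFinSuccAbove (fun _ : Fin (m + 1) => ℝ) 0).symm
  have hf2 : Measurable (fun y : Fin (m + 1) → ℝ => f (WithLp.toLp 2 y)) :=
    hf.comp (PiLp.volume_preserving_toLp (Fin (m + 1))).measurable
  rw [← h2.lintegral_comp hf2]
  have hf3 := hf2.comp h2.measurable
  change ∫⁻ p, ((fun y : Fin (m + 1) → ℝ => f (WithLp.toLp 2 y)) ∘
    (MeasurableEquiv.piFinSuccAbove (fun _ : Fin (m + 1) => ℝ) 0).symm) p ∂(volume.prod volume) = _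
  rw [lintegral_prod _ hf3.aemeasurable]
  apply lintegral_congr
  intro s
  have hf4 : Measurable (fun w : Fin m → ℝ => ((fun y : Fin (m + 1) → ℝ => f (WithLp.toLp 2 y)) ∘
    (MeasurableEquiv.piFinSuccAbove (fun _ : Fin (m + 1) => ℝ) 0).symm) (s, w)) :=
    hf3.comp (measurable_const.prodMk measurable_id)
  have h3 := (PiLp.volume_preserving_ofLp (Fin m)).lintegral_comp hf4
  rw [← h3]
  refine lintegral_congr fun z => ?_
  simp only [Function.comp_apply]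
  congr 1
  unfold cn
  congr 1
  change (Fin.insertNth (α := fun _ : Fin (m + 1) => ℝ) 0 s z.ofLp : Fin (m + 1) → ℝ) = _
  rw [Fin.insertNth_zero']

theorem radial {k : ℕ} {h : ℝ → ℝ≥0∞} (hh : Measurable h) :
    ∫⁻ z : E (k + 1), h ‖z‖ = ((k + 1 : ℕ) * volume (ball (0 : E (k + 1)) 1)) *
      ∫⁻ r in Ioi (0 : ℝ), ENNReal.ofReal (r ^ k) * h r := by
  have e1 : ∫⁻ z : E (k + 1), h ‖z‖ =
      ∫⁻ z : ({(0 : E (k + 1))}ᶜ : Set (E (k + 1))), h ‖z.1‖ ∂((volume : Measure (E (k + 1))).comap (↑)) := by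
    rw [lintegral_subtype_comap (measurableSet_singleton _).compl (fun z : E (k + 1) => h ‖z‖),
      restrict_compl_singleton]
  rw [e1]
  have e2 := (volume : Measure (E (k + 1))).measurePreserving_homeomorphUnitSphereProd.lintegral_comp_emb
    (Homeomorph.measurableEmbedding _) (h ∘ Subtype.val ∘ Prod.snd)
  simp only [Function.comp_def, homeomorphUnitSphereProd_apply_snd_coe] at e2
  rw [e2]
  have hm : Measurable (fun x : Ioi (0 : ℝ) => h x) := hh.comp measurable_subtype_coe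
  have hm2 : Measurable (fun b : sphere (0 : E (k + 1)) 1 × Ioi (0 : ℝ) => h b.2) :=
    hm.comp measurable_snd
  rw [lintegral_prod _ hm2.aemeasurable]
  simp only [lintegral_const]
  rw [Measure.toSphere_apply_univ, mul_comm]
  have hd : Module.finrank ℝ (E (k + 1)) = k + 1 := by simp
  rw [hd]
  congr 1
  simp only [Nat.add_sub_cancel]
  unfold Measure.volumeIoiPow
  rw [lintegral_withDensity_eq_lintegral_mul _ (by fun_prop) hm]
  have := lintegral_subtype_comap (μ := (volume : Measure ℝ)) measurableSet_Ioi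
    (fun r : ℝ => ENNReal.ofReal (r ^ k) * h r) (s := Ioi (0 : ℝ))
  rw [← this]
  rfl

/-- substitution `ρ = √(τ² + s²)` -/
theorem subst_rho (τ : ℝ) (h : ℝ → ℝ≥0∞) :
    ∫⁻ s in Ioi (0 : ℝ), ENNReal.ofReal s * h (√(τ ^ 2 + s ^ 2)) =
      ∫⁻ ρ in Ioi |τ|, ENNReal.ofReal ρ * h ρ := by
  have himg : (fun s : ℝ => √(τ ^ 2 + s ^ 2)) '' Ioi 0 = Ioi |τ| := by
    ext ρ
    simp only [mem_image, mem_Ioi]
    constructor
    · rintro ⟨s, hs, rfl⟩
      apply Real.lt_sqrt_of_sq_lt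
      rw [sq_abs]
      have : 0 < s ^ 2 := by positivity
      linarith
    · intro hρ
      have hρ0 : 0 < ρ := lt_of_le_of_lt (abs_nonneg _) hρ
      have h1 : τ ^ 2 < ρ ^ 2 := by
        rw [← sq_abs τ]
        exact pow_lt_pow_left₀ hρ (abs_nonneg _) two_ne_zero
      refine ⟨√(ρ ^ 2 - τ ^ 2), Real.sqrt_pos.2 (by linarith), ?_⟩
      rw [Real.sq_sqrt (by linarith)]
      rw [show τ ^ 2 + (ρ ^ 2 - τ ^ 2) = ρ ^ 2 by ring]
      exact Real.sqrt_sq hρ0.le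
  have hderiv : ∀ s ∈ Ioi (0 : ℝ), HasDerivWithinAt (fun s : ℝ => √(τ ^ 2 + s ^ 2))
      (s / √(τ ^ 2 + s ^ 2)) (Ioi 0) s := by
    intro s hs
    have hs' : 0 < s := hs
    have hpos : 0 < τ ^ 2 + s ^ 2 := by positivity
    have h1 : HasDerivAt (fun s : ℝ => τ ^ 2 + s ^ 2) (2 * s) s := by
      simpa using (hasDerivAt_pow 2 s).const_add (τ ^ 2)
    have h2 := h1.sqrt hpos.ne'
    refine (h2.congr_deriv ?_).hasDerivWithinAt
    have : √(τ ^ 2 + s ^ 2) ≠ 0 := (Real.sqrt_pos.2 hpos).ne'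
    field_simp
  have hinj : InjOn (fun s : ℝ => √(τ ^ 2 + s ^ 2)) (Ioi 0) := by
    intro s hs s' hs' heq
    have hs1 : 0 < s := hs
    have hs2 : 0 < s' := hs'
    have heq' : √(τ ^ 2 + s ^ 2) = √(τ ^ 2 + s' ^ 2) := heq
    have h3 : τ ^ 2 + s ^ 2 = τ ^ 2 + s' ^ 2 :=
      (Real.sqrt_inj (by positivity) (by positivity)).1 heq'
    nlinarith [h3]
  rw [← himg, lintegral_image_eq_lintegral_abs_deriv_mul measurableSet_Ioi hderiv hinj]
  refine setLIntegral_congr_fun measurableSet_Ioi ?_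
  intro s hs
  have hs' : 0 < s := hs
  have hpos : 0 < τ ^ 2 + s ^ 2 := by positivity
  have hsq : 0 < √(τ ^ 2 + s ^ 2) := Real.sqrt_pos.2 hpos
  simp only
  rw [← mul_assoc, ← ENNReal.ofReal_mul (abs_nonneg _)]
  congr 2
  rw [abs_of_nonneg (by positivity)]
  field_simp

/-- volume of the unit disc -/
theorem vol2 : ((1 + 1 : ℕ) : ℝ≥0∞) * volume (ball (0 : E (1 + 1)) 1) = ENNReal.ofReal (2 * Real.pi) := by
  have h : volume (ball (0 : E (1 + 1)) 1) = ENNReal.ofReal Real.pi := by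
    have h2 := EuclideanSpace.volume_ball_fin_two (0 : EuclideanSpace ℝ (Fin 2)) 1
    refine h2.trans ?_
    simp
  rw [h, ENNReal.ofReal_mul (by norm_num : (0:ℝ) ≤ 2)]
  norm_num

theorem vol3 : ((2 + 1 : ℕ) : ℝ≥0∞) * volume (ball (0 : E (2 + 1)) 1) = ENNReal.ofReal (4 * Real.pi) := by
  have h : volume (ball (0 : E (2 + 1)) 1) = ENNReal.ofReal (4 / 3 * Real.pi) := by
    have h2 := EuclideanSpace.volume_ball_fin_three (0 : EuclideanSpace ℝ (Fin 3)) 1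
    refine h2.trans ?_
    rw [ENNReal.ofReal_one, one_pow, one_mul]
    congr 1
    ring
  rw [h]
  have h3 : ((2 + 1 : ℕ) : ℝ≥0∞) = ENNReal.ofReal 3 := by norm_num
  rw [h3, ← ENNReal.ofReal_mul (by norm_num)]
  congr 1
  ring

/-- the zonal formula: `y ↦ (|y|, y₀)` -/
theorem zonal {F : ℝ → ℝ → ℝ≥0∞} (hF : Measurable (fun p : ℝ × ℝ => F p.1 p.2)) :
    ∫⁻ y : E 3, F (y 0) ‖y‖ = ENNReal.ofReal (2 * Real.pi) *
      ∫⁻ ρ in Ioi (0 : ℝ), ∫⁻ τ in Ioo (-ρ) ρ, ENNReal.ofReal ρ * F τ ρ := by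
  have hmeas : Measurable (fun y : E (2 + 1) => F (y 0) ‖y‖) := by
    have h1 : Measurable (fun y : E (2 + 1) => ((y 0 : ℝ), ‖y‖)) := by fun_prop
    exact hF.comp h1
  have h0 := peel (m := 2) hmeas
  have h1 : ∀ τ : ℝ, ∫⁻ z : E 2, F ((cn τ z) 0) ‖cn τ z‖ = ENNReal.ofReal (2 * Real.pi) *
      ∫⁻ ρ in Ioi |τ|, ENNReal.ofReal ρ * F τ ρ := by
    intro τ
    have h2 : ∀ z : E 2, F ((cn τ z) 0) ‖cn τ z‖ = (fun s : ℝ => F τ (√(τ ^ 2 + s ^ 2))) ‖z‖ := by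
      intro z
      rw [cn_zero]
      simp only
      congr 1
      rw [← cn_norm_sq, Real.sqrt_sq (norm_nonneg _)]
    simp_rw [h2]
    have hm : Measurable (fun s : ℝ => F τ (√(τ ^ 2 + s ^ 2))) :=
      hF.comp (measurable_const.prodMk (by fun_prop))
    have h3 := radial (k := 1) hm
    rw [vol2] at h3
    refine h3.trans ?_
    congr 1
    have h4 := subst_rho τ (F τ)
    rw [← h4]
    simp
  have h5 : ∫⁻ y : E 3, F (y 0) ‖y‖ = ∫⁻ τ : ℝ, ENNReal.ofReal (2 * Real.pi) *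
      ∫⁻ ρ in Ioi |τ|, ENNReal.ofReal ρ * F τ ρ := by
    refine h0.trans ?_
    exact lintegral_congr h1
  rw [h5, lintegral_const_mul']
  swap
  · exact ENNReal.ofReal_ne_top
  congr 1
  -- Tonelli
  have hind1 : ∀ τ : ℝ, ∫⁻ ρ in Ioi |τ|, ENNReal.ofReal ρ * F τ ρ =
      ∫⁻ ρ, (Ioi |τ|).indicator (fun ρ => ENNReal.ofReal ρ * F τ ρ) ρ := fun τ =>
    (lintegral_indicator measurableSet_Ioi _).symm
  simp_rw [hind1]
  have hmeas2 : Measurable (fun p : ℝ × ℝ =>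
      (Ioi |p.1|).indicator (fun ρ => ENNReal.ofReal ρ * F p.1 ρ) p.2) := by
    have hS : MeasurableSet {p : ℝ × ℝ | |p.1| < p.2} :=
      measurableSet_lt (by fun_prop) measurable_snd
    have : (fun p : ℝ × ℝ => (Ioi |p.1|).indicator (fun ρ => ENNReal.ofReal ρ * F p.1 ρ) p.2) =
        {p : ℝ × ℝ | |p.1| < p.2}.indicator (fun p => ENNReal.ofReal p.2 * F p.1 p.2) := by
      funext p
      by_cases hp : |p.1| < p.2
      · rw [indicator_of_mem (show p.2 ∈ Ioi |p.1| from hp), indicator_of_mem (show p ∈ {p : ℝ × ℝ | |p.1| < p.2} from hp)]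
      · rw [indicator_of_notMem (show p.2 ∉ Ioi |p.1| from hp), indicator_of_notMem (show p ∉ {p : ℝ × ℝ | |p.1| < p.2} from hp)]
    rw [this]
    exact ((ENNReal.measurable_ofReal.comp measurable_snd).mul hF).indicator hS
  rw [lintegral_lintegral_swap hmeas2.aemeasurable]
  rw [← lintegral_indicator measurableSet_Ioi]
  refine lintegral_congr fun ρ => ?_
  by_cases hρ : 0 < ρ
  · rw [indicator_of_mem (show ρ ∈ Ioi (0 : ℝ) from hρ), ← lintegral_indicator measurableSet_Ioo]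
    refine lintegral_congr fun τ => ?_
    by_cases hτ : |τ| < ρ
    · rw [indicator_of_mem (show ρ ∈ Ioi |τ| from hτ), indicator_of_mem (show τ ∈ Ioo (-ρ) ρ from abs_lt.1 hτ)]
    · rw [indicator_of_notMem (show ρ ∉ Ioi |τ| from hτ), indicator_of_notMem (fun h : τ ∈ Ioo (-ρ) ρ => hτ (abs_lt.2 h))]
  · rw [indicator_of_notMem (show ρ ∉ Ioi (0 : ℝ) from hρ)]
    rw [lintegral_eq_zero_iff' (by
      exact (hmeas2.comp (measurable_id.prodMk measurable_const)).aemeasurable)]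
    filter_upwards with τ
    exact indicator_of_notMem (fun h : ρ ∈ Ioi |τ| => hρ (lt_of_le_of_lt (abs_nonneg τ) h)) _

/-- from a lintegral identity to integrability and the value -/
theorem finish {f : E 3 → ℝ} (hf : Measurable f) (h0 : ∀ y, 0 ≤ f y) {c : ℝ} (hc : 0 ≤ c)
    {g : ℝ → ℝ} (hg : Measurable g) (hg0 : ∀ y ∈ Ioc (0 : ℝ) 1, 0 ≤ g y)
    (hgB : ∃ B, ∀ y ∈ Ioc (0 : ℝ) 1, g y ≤ B)
    (h : ∫⁻ y, ENNReal.ofReal (f y) = ENNReal.ofReal c * ∫⁻ y in Ioc (0 : ℝ) 1, ENNReal.ofReal (g y)) :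
    Integrable f ∧ ∫ y, f y = c * ∫ y in Ioc (0 : ℝ) 1, g y := by
  have hgi : Integrable g (volume.restrict (Ioc (0 : ℝ) 1)) := by
    obtain ⟨B, hB⟩ := hgB
    refine Measure.integrableOn_of_bounded (M := B) (by simp) hg.aestronglyMeasurable ?_
    filter_upwards [ae_restrict_mem measurableSet_Ioc] with y hy
    rw [Real.norm_eq_abs, abs_of_nonneg (hg0 y hy)]
    exact hB y hy
  have hgnn : 0 ≤ᵐ[volume.restrict (Ioc (0 : ℝ) 1)] g := by
    filter_upwards [ae_restrict_mem measurableSet_Ioc] with y hy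
    exact hg0 y hy
  rw [← ofReal_integral_eq_lintegral_ofReal hgi hgnn, ← ENNReal.ofReal_mul hc] at h
  constructor
  · refine (lintegral_ofReal_ne_top_iff_integrable hf.aestronglyMeasurable
      (Eventually.of_forall h0)).1 ?_
    rw [h]
    exact ENNReal.ofReal_ne_top
  · rw [integral_eq_lintegral_of_nonneg_ae (Eventually.of_forall h0) hf.aestronglyMeasurable, h,
      ENNReal.toReal_ofReal]
    exact mul_nonneg hc (integral_nonneg_of_ae hgnn)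

/-- the inner integral -/
theorem inner_int {r ρ : ℝ} (hr : 0 < r) (hρ : 0 < ρ) (hne : ρ ≠ r) :
    ∫⁻ τ in Ioo (-ρ) ρ, ENNReal.ofReal ((r ^ 2 + ρ ^ 2 - 2 * r * τ) ^ (-(3 / 4) : ℝ)) =
      ENNReal.ofReal ((2 / r) * (√(r + ρ) - √|r - ρ|)) := by
  have hq : ∀ τ ∈ Icc (-ρ) ρ, 0 < r ^ 2 + ρ ^ 2 - 2 * r * τ := by
    intro τ hτ
    have h1 : 0 < (r - ρ) ^ 2 := by
      have : r - ρ ≠ 0 := sub_ne_zero.2 hne.symm
      positivity
    have h2 : r * τ ≤ r * ρ := mul_le_mul_of_nonneg_left hτ.2 hr.le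
    nlinarith
  have hcont : ContinuousOn (fun τ : ℝ => (r ^ 2 + ρ ^ 2 - 2 * r * τ) ^ (-(3 / 4) : ℝ)) (Icc (-ρ) ρ) := by
    apply ContinuousOn.rpow_const (by fun_prop)
    intro τ hτ
    exact Or.inl (hq τ hτ).ne'
  have hle : -ρ ≤ ρ := by linarith
  have hint : IntegrableOn (fun τ : ℝ => (r ^ 2 + ρ ^ 2 - 2 * r * τ) ^ (-(3 / 4) : ℝ)) (Ioo (-ρ) ρ) :=
    (hcont.integrableOn_Icc).mono_set Ioo_subset_Icc_self
  have hnn : 0 ≤ᵐ[volume.restrict (Ioo (-ρ) ρ)]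
      (fun τ : ℝ => (r ^ 2 + ρ ^ 2 - 2 * r * τ) ^ (-(3 / 4) : ℝ)) := by
    filter_upwards [ae_restrict_mem measurableSet_Ioo] with τ hτ
    exact Real.rpow_nonneg (hq τ (Ioo_subset_Icc_self hτ)).le _
  rw [← ofReal_integral_eq_lintegral_ofReal hint hnn]
  congr 1
  rw [← integral_Ioc_eq_integral_Ioo, ← intervalIntegral.integral_of_le hle]
  have hd : ∀ τ ∈ uIcc (-ρ) ρ, HasDerivAt
      (fun τ : ℝ => -(2 / r) * (r ^ 2 + ρ ^ 2 - 2 * r * τ) ^ ((1 / 4 : ℝ)))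
      ((r ^ 2 + ρ ^ 2 - 2 * r * τ) ^ (-(3 / 4) : ℝ)) τ := by
    intro τ hτ
    rw [uIcc_of_le hle] at hτ
    have h1 : HasDerivAt (fun τ : ℝ => r ^ 2 + ρ ^ 2 - 2 * r * τ) (-(2 * r)) τ := by
      have := ((hasDerivAt_id τ).const_mul (2 * r)).const_sub (r ^ 2 + ρ ^ 2)
      simpa using this
    have h2 := (h1.rpow_const (p := (1 / 4 : ℝ)) (Or.inl (hq τ hτ).ne')).const_mul (-(2 / r))
    refine h2.congr_deriv ?_
    rw [show (1 / 4 : ℝ) - 1 = -(3 / 4) by norm_num]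
    field_simp
    norm_num
  rw [intervalIntegral.integral_eq_sub_of_hasDerivAt hd]
  · have e1 : (r ^ 2 + ρ ^ 2 - 2 * r * ρ) ^ ((1 / 4 : ℝ)) = √|r - ρ| := by
      rw [show r ^ 2 + ρ ^ 2 - 2 * r * ρ = |r - ρ| ^ 2 by rw [sq_abs]; ring]
      rw [← Real.rpow_natCast, ← Real.rpow_mul (abs_nonneg _), Real.sqrt_eq_rpow]
      norm_num
    have e2 : (r ^ 2 + ρ ^ 2 - 2 * r * (-ρ)) ^ ((1 / 4 : ℝ)) = √(r + ρ) := by
      rw [show r ^ 2 + ρ ^ 2 - 2 * r * (-ρ) = (r + ρ) ^ 2 by ring]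
      rw [← Real.rpow_natCast, ← Real.rpow_mul (by positivity), Real.sqrt_eq_rpow]
      norm_num
    rw [e1, e2]
    ring
  · exact (hcont.mono (by rw [uIcc_of_le hle])).intervalIntegrable

theorem rot (x : E 3) : ∃ L : E 3 ≃ₗᵢ[ℝ] E 3, L x = ‖x‖ • EuclideanSpace.single (0 : Fin 3) (1 : ℝ) := by
  refine ⟨(ℝ ∙ (x - ‖x‖ • EuclideanSpace.single (0 : Fin 3) (1 : ℝ)))ᗮ.reflection, ?_⟩
  apply Submodule.reflection_sub
  rw [norm_smul]
  simp

theorem norm_sub_sq (r : ℝ) (y : E 3) :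
    ‖r • EuclideanSpace.single (0 : Fin 3) (1 : ℝ) - y‖ ^ 2 = r ^ 2 + ‖y‖ ^ 2 - 2 * r * y 0 := by
  rw [EuclideanSpace.real_norm_sq_eq, EuclideanSpace.real_norm_sq_eq]
  simp [Fin.sum_univ_three]
  ring

theorem pow_eq (x y : E 3) (L : E 3 ≃ₗᵢ[ℝ] E 3)
    (hL : L x = ‖x‖ • EuclideanSpace.single (0 : Fin 3) (1 : ℝ)) :
    (‖x‖ ^ 2 + ‖L y‖ ^ 2 - 2 * ‖x‖ * (L y) 0) ^ (-(3 / 4) : ℝ) = ‖x - y‖ ^ (-(3 / 2) : ℝ) := by
  rw [← norm_sub_sq, ← hL, ← L.map_sub, L.norm_map, ← Real.rpow_natCast,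
    ← Real.rpow_mul (norm_nonneg _)]
  norm_num

theorem step1 (w : ℝ → ℝ) (hwm : Measurable w) (x : E 3) :
    ∫⁻ y : E 3, ENNReal.ofReal (‖x - y‖ ^ (-(3 / 2) : ℝ) * w ‖y‖) =
      ENNReal.ofReal (2 * Real.pi) *
      ∫⁻ ρ in Ioi (0 : ℝ), ∫⁻ τ in Ioo (-ρ) ρ, ENNReal.ofReal ρ *
        ENNReal.ofReal ((‖x‖ ^ 2 + ρ ^ 2 - 2 * ‖x‖ * τ) ^ (-(3 / 4) : ℝ) * w ρ) := by
  obtain ⟨L, hL⟩ := rot x
  have hFm : Measurable (fun p : ℝ × ℝ =>
      (fun τ ρ : ℝ => ENNReal.ofReal ((‖x‖ ^ 2 + ρ ^ 2 - 2 * ‖x‖ * τ) ^ (-(3 / 4) : ℝ) * w ρ)) p.1 p.2) := by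
    apply ENNReal.measurable_ofReal.comp
    apply Measurable.mul
    · exact Measurable.pow_const (by fun_prop) _
    · exact hwm.comp measurable_snd
  have hz := zonal (F := fun τ ρ : ℝ =>
    ENNReal.ofReal ((‖x‖ ^ 2 + ρ ^ 2 - 2 * ‖x‖ * τ) ^ (-(3 / 4) : ℝ) * w ρ)) hFm
  simp only at hz
  rw [← hz]
  have hm : Measurable (fun y : E 3 =>
      ENNReal.ofReal ((‖x‖ ^ 2 + ‖y‖ ^ 2 - 2 * ‖x‖ * y 0) ^ (-(3 / 4) : ℝ) * w ‖y‖)) := by
    apply ENNReal.measurable_ofReal.comp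
    apply Measurable.mul
    · exact Measurable.pow_const (by fun_prop) _
    · exact hwm.comp measurable_norm
  have h2 := L.measurePreserving.lintegral_comp hm
  rw [← h2]
  refine lintegral_congr fun y => ?_
  rw [pow_eq x y L hL, L.norm_map]

theorem main_pos (w : ℝ → ℝ) (hw : Prof w) (x : E 3) (hx : x ≠ 0) :
    ∫⁻ y : E 3, ENNReal.ofReal (‖x - y‖ ^ (-(3 / 2) : ℝ) * w ‖y‖) =
      ENNReal.ofReal (4 * Real.pi / ‖x‖) * ∫⁻ y in Ioc (0 : ℝ) 1,
        ENNReal.ofReal ((y * w y) * (√(‖x‖ + y) - √|‖x‖ - y|)) := by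
  rw [step1 w hw.meas x]
  have hr : 0 < ‖x‖ := norm_pos_iff.2 hx
  generalize ‖x‖ = r at hr
  have h2 : ∫⁻ ρ in Ioi (0 : ℝ), ∫⁻ τ in Ioo (-ρ) ρ, ENNReal.ofReal ρ *
        ENNReal.ofReal ((r ^ 2 + ρ ^ 2 - 2 * r * τ) ^ (-(3 / 4) : ℝ) * w ρ) =
      ∫⁻ ρ in Ioi (0 : ℝ), ENNReal.ofReal (2 / r) * ENNReal.ofReal ((ρ * w ρ) * (√(r + ρ) - √|r - ρ|)) := by
    refine setLIntegral_congr_fun_ae measurableSet_Ioi ?_
    have hne : ∀ᵐ ρ : ℝ, ρ ≠ r := by
      exact Measure.ae_ne volume r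
    filter_upwards [hne] with ρ hρr hρ
    have hρ0 : 0 < ρ := hρ
    have hin := inner_int hr hρ0 hρr
    have h3 : ∀ τ : ℝ, ENNReal.ofReal ρ * ENNReal.ofReal ((r ^ 2 + ρ ^ 2 - 2 * r * τ) ^ (-(3 / 4) : ℝ) * w ρ) =
        (ENNReal.ofReal ρ * ENNReal.ofReal (w ρ)) *
          ENNReal.ofReal ((r ^ 2 + ρ ^ 2 - 2 * r * τ) ^ (-(3 / 4) : ℝ)) := by
      intro τ
      rw [mul_comm (_ ^ _) (w ρ), ENNReal.ofReal_mul (hw.nonneg ρ), ← mul_assoc]
    simp_rw [h3]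
    rw [lintegral_const_mul' _ _ (ENNReal.mul_ne_top ENNReal.ofReal_ne_top ENNReal.ofReal_ne_top), hin,
      ← ENNReal.ofReal_mul hρ0.le, ← ENNReal.ofReal_mul (mul_nonneg hρ0.le (hw.nonneg ρ)),
      ← ENNReal.ofReal_mul (by positivity)]
    congr 1
    ring
  rw [h2, lintegral_const_mul' _ _ ENNReal.ofReal_ne_top, ← mul_assoc,
    ← ENNReal.ofReal_mul (by positivity)]
  congr 1
  · congr 1
    ring
  · rw [← lintegral_indicator measurableSet_Ioi, ← lintegral_indicator measurableSet_Ioc]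
    refine lintegral_congr fun ρ => ?_
    by_cases h : ρ ∈ Ioc (0 : ℝ) 1
    · rw [indicator_of_mem h, indicator_of_mem (show ρ ∈ Ioi (0:ℝ) from h.1)]
    · rw [indicator_of_notMem h]
      by_cases h' : ρ ∈ Ioi (0 : ℝ)
      · rw [indicator_of_mem h', hw.supp ρ h]
        simp
      · rw [indicator_of_notMem h']

theorem main_zero (w : ℝ → ℝ) (hw : Prof w) :
    ∫⁻ y : E 3, ENNReal.ofReal (‖(0 : E 3) - y‖ ^ (-(3 / 2) : ℝ) * w ‖y‖) =
      ENNReal.ofReal (4 * Real.pi) * ∫⁻ y in Ioc (0 : ℝ) 1, ENNReal.ofReal (√y * w y) := by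
  have hm : Measurable (fun s : ℝ => ENNReal.ofReal (s ^ (-(3 / 2) : ℝ) * w s)) := by
    apply ENNReal.measurable_ofReal.comp
    exact (Measurable.pow_const measurable_id _).mul hw.meas
  have h3 := radial (k := 2) hm
  rw [vol3] at h3
  have h4 : ∫⁻ y : E 3, ENNReal.ofReal (‖(0 : E 3) - y‖ ^ (-(3 / 2) : ℝ) * w ‖y‖) =
      ∫⁻ y : E (2 + 1), ENNReal.ofReal (‖y‖ ^ (-(3 / 2) : ℝ) * w ‖y‖) := by
    refine lintegral_congr fun y => ?_
    rw [zero_sub, norm_neg]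
  refine h4.trans (h3.trans ?_)
  congr 1
  rw [← lintegral_indicator measurableSet_Ioi, ← lintegral_indicator measurableSet_Ioc]
  refine lintegral_congr fun ρ => ?_
  by_cases h : ρ ∈ Ioc (0 : ℝ) 1
  · rw [indicator_of_mem h, indicator_of_mem (show ρ ∈ Ioi (0:ℝ) from h.1)]
    rw [← ENNReal.ofReal_mul (by positivity), ← mul_assoc]
    congr 2
    rw [← Real.rpow_natCast, ← Real.rpow_add h.1, Real.sqrt_eq_rpow]
    norm_num
  · rw [indicator_of_notMem h]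
    by_cases h' : ρ ∈ Ioi (0 : ℝ)
    · rw [indicator_of_mem h', hw.supp ρ h]
      simp
    · rw [indicator_of_notMem h']

theorem t : Rad := by
  intro w hw x
  have hfm : Measurable (fun y : E 3 => ‖x - y‖ ^ (-(3 / 2) : ℝ) * w ‖y‖) := by
    apply Measurable.mul
    · exact Measurable.pow_const (by fun_prop) _
    · exact hw.meas.comp measurable_norm
  have hf0 : ∀ y : E 3, 0 ≤ ‖x - y‖ ^ (-(3 / 2) : ℝ) * w ‖y‖ := fun y =>
    mul_nonneg (Real.rpow_nonneg (norm_nonneg _) _) (hw.nonneg _)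
  obtain ⟨B, hB⟩ := hw.bdd
  have hB0 : 0 ≤ B := (hw.nonneg 0).trans (hB 0)
  by_cases hx : x = 0
  · subst hx
    have hfin := finish hfm hf0 (c := 4 * Real.pi) (by positivity) (g := fun y => √y * w y)
      ((measurable_id.sqrt).mul hw.meas) (fun y _ => mul_nonneg (Real.sqrt_nonneg _) (hw.nonneg _))
      ⟨B, fun y hy => by
        have h1 : √y ≤ 1 := by
          have := Real.sqrt_le_sqrt hy.2
          rwa [Real.sqrt_one] at this
        calc √y * w y ≤ 1 * B := mul_le_mul h1 (hB y) (hw.nonneg y) zero_le_one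
          _ = B := one_mul _⟩ (main_zero w hw)
    exact ⟨hfin.1, fun h => absurd rfl h, fun _ => hfin.2⟩
  · have hr : 0 < ‖x‖ := norm_pos_iff.2 hx
    have hfin := finish hfm hf0 (c := 4 * Real.pi / ‖x‖) (by positivity)
      (g := fun y => (y * w y) * (√(‖x‖ + y) - √|‖x‖ - y|))
      ((measurable_id.mul hw.meas).mul (by fun_prop)) (fun y hy => by
        refine mul_nonneg (mul_nonneg hy.1.le (hw.nonneg y)) (sub_nonneg.2 (Real.sqrt_le_sqrt ?_))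
        rw [abs_le]
        constructor <;> linarith [hy.1])
      ⟨B * √(‖x‖ + 1), fun y hy => by
        have h1 : √(‖x‖ + y) - √|‖x‖ - y| ≤ √(‖x‖ + 1) := by
          have := Real.sqrt_le_sqrt (show ‖x‖ + y ≤ ‖x‖ + 1 by linarith [hy.2])
          have h2 := Real.sqrt_nonneg |‖x‖ - y|
          linarith
        have h2 : y * w y ≤ B := by
          calc y * w y ≤ 1 * B := mul_le_mul hy.2 (hB y) (hw.nonneg y) zero_le_one
            _ = B := one_mul _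
        have h3 : 0 ≤ √(‖x‖ + y) - √|‖x‖ - y| := by
          refine sub_nonneg.2 (Real.sqrt_le_sqrt ?_)
          rw [abs_le]
          constructor <;> linarith [hy.1]
        exact mul_le_mul h2 h1 h3 hB0⟩ (main_pos w hw x hx)
    exact ⟨hfin.1, fun _ => hfin.2, fun h => absurd h hx⟩

end Pool.Agent.H329R3.PM.TRad
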