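import Pool.Agent.H329R3.PM.Stmts

open MeasureTheory Set Filter Topology

namespace Pool.Agent.H329R3.PM.DerTask

lemma key {μ : Measure ℝ} {F : ℝ → ℝ → ℝ} {F' : ℝ → ℝ} {bound : ℝ → ℝ} {x₀ : ℝ} {s : Set ℝ}
    (hs : s ∈ 𝓝 x₀)
    (hF_meas : ∀ x ∈ s, AEStronglyMeasurable (F x) μ) (hF_int : Integrable (F x₀) μ)
    (hF'_meas : AEStronglyMeasurable F' μ)
    (h_lipsch : ∀ᵐ a ∂μ, ∀ x ∈ s, ‖F x a - F x₀ a‖ ≤ bound a * ‖x - x₀‖)
    (bound_integrable : Integrable (bound : ℝ → ℝ) μ)
    (h_diff : ∀ᵐ a ∂μ, HasDerivAt (F · a) (F' a) x₀) :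
    HasDerivAt (fun x ↦ ∫ a, F x a ∂μ) (∫ a, F' a ∂μ) x₀ := by
  set L : ℝ →L[ℝ] ℝ →L[ℝ] ℝ := ContinuousLinearMap.smulRightL ℝ ℝ ℝ 1
  replace h_diff : ∀ᵐ a ∂μ, HasFDerivAt (F · a) (L (F' a)) x₀ :=
    h_diff.mono fun x hx ↦ hx.hasFDerivAt
  have hm : AEStronglyMeasurable (L ∘ F') μ := L.continuous.comp_aestronglyMeasurable hF'_meas
  obtain ⟨hF'_int, key⟩ := hasFDerivAt_integral_of_dominated_loc_of_lip'
    hs hF_meas hF_int hm h_lipsch bound_integrable h_diff
  replace hF'_int : Integrable F' μ := by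
    rw [← integrable_norm_iff hm] at hF'_int
    rw [← integrable_norm_iff hF'_meas]
    simpa [L, (· ∘ ·)] using! hF'_int
  simp_rw [hasDerivAt_iff_hasFDerivAt] at h_diff ⊢
  simpa only [(· ∘ ·), ContinuousLinearMap.integral_comp_comm _ hF'_int] using! key

lemma sqrt_inv_eq (x : ℝ) : (√x)⁻¹ = x ^ (-(1 / 2) : ℝ) := by
  rcases le_or_gt 0 x with h | h
  · rw [Real.rpow_neg h, Real.sqrt_eq_rpow]
  · rw [Real.sqrt_eq_zero_of_nonpos h.le, Real.rpow_def_of_neg h]
    have : Real.cos (-(1 / 2) * Real.pi) = 0 := by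
      rw [show -(1 / 2 : ℝ) * Real.pi = -(Real.pi / 2) by ring, Real.cos_neg, Real.cos_pi_div_two]
    rw [this]
    simp

lemma sqrt_abs_inv_eq (x : ℝ) : (√|x|)⁻¹ = (√x)⁻¹ + (√(-x))⁻¹ := by
  rcases le_or_gt 0 x with h | h
  · rw [abs_of_nonneg h, Real.sqrt_eq_zero_of_nonpos (by linarith : -x ≤ 0)]
    simp
  · rw [abs_of_neg h, Real.sqrt_eq_zero_of_nonpos h.le]
    simp

lemma ii_sqrt (a b : ℝ) : IntervalIntegrable (fun x : ℝ => (√x)⁻¹) volume a b := by
  simp_rw [sqrt_inv_eq]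
  exact intervalIntegral.intervalIntegrable_rpow' (by norm_num)

lemma ii_sqrt_abs (a b : ℝ) : IntervalIntegrable (fun x : ℝ => (√|x|)⁻¹) volume a b := by
  simp_rw [sqrt_abs_inv_eq]
  refine (ii_sqrt a b).add ?_
  have := (ii_sqrt (-a) (-b)).comp_sub_left 0
  simpa using this

lemma io_sqrt_abs (r : ℝ) : IntegrableOn (fun y : ℝ => (√|r - y|)⁻¹) (Ioc (0 : ℝ) 1) := by
  have h := (ii_sqrt_abs r (r - 1)).comp_sub_left r
  simp only [sub_self, sub_sub_cancel] at h
  exact (intervalIntegrable_iff_integrableOn_Ioc_of_le zero_le_one).1 h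

lemma sqrt_sub_le {A B : ℝ} (hA : 0 ≤ A) (hB : 0 < B) : |√A - √B| ≤ (√B)⁻¹ * |A - B| := by
  have hs : 0 < √B := Real.sqrt_pos.2 hB
  have h1 : |√A - √B| * (√A + √B) = |A - B| := by
    have h0 : 0 ≤ √A + √B := by positivity
    have h1 : |√A - √B| * |√A + √B| = |A - B| := by
      rw [← abs_mul]
      congr 1
      nlinarith [Real.mul_self_sqrt hA, Real.mul_self_sqrt hB.le]
    rwa [abs_of_nonneg h0] at h1
  rw [← h1]
  have h2 : 1 ≤ (√B)⁻¹ * (√A + √B) := by
    rw [mul_add, inv_mul_cancel₀ hs.ne']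
    have : 0 ≤ (√B)⁻¹ * √A := by positivity
    linarith
  calc |√A - √B| = |√A - √B| * 1 := (mul_one _).symm
    _ ≤ |√A - √B| * ((√B)⁻¹ * (√A + √B)) := mul_le_mul_of_nonneg_left h2 (abs_nonneg _)
    _ = _ := by ring

lemma deriv_sqrt_abs {r y : ℝ} (h : r - y ≠ 0) :
    HasDerivAt (fun x : ℝ => √|x - y|) (sg (r - y) / 2) r := by
  have h0 : HasDerivAt (fun x : ℝ => x - y) 1 r := by
    simpa using (hasDerivAt_id r).sub_const y
  rcases lt_or_gt_of_ne h with h1 | h1
  · have h2 : HasDerivAt (fun x : ℝ => |x - y|) (-1) r := by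
      have := (hasDerivAt_abs_neg h1).comp r h0
      simpa [Function.comp_def] using this
    have h3 := h2.sqrt (by positivity)
    have h4 : (0 : ℝ) < √|r - y| := Real.sqrt_pos.2 (by positivity)
    convert h3 using 1
    unfold sg
    have h5 : r - y = -|r - y| := by rw [abs_of_neg h1]; ring
    have h6 : (0 : ℝ) < |r - y| := by positivity
    nth_rewrite 1 [h5]
    field_simp
  · have h2 : HasDerivAt (fun x : ℝ => |x - y|) 1 r := by
      have := (hasDerivAt_abs_pos h1).comp r h0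
      simpa [Function.comp_def] using this
    have h3 := h2.sqrt (by positivity)
    have h4 : (0 : ℝ) < √|r - y| := Real.sqrt_pos.2 (by positivity)
    convert h3 using 1
    unfold sg
    have h5 : r - y = |r - y| := by rw [abs_of_pos h1]
    have h6 : (0 : ℝ) < |r - y| := by positivity
    nth_rewrite 1 [h5]
    field_simp

lemma meas_sg : Measurable sg := by
  unfold sg
  fun_prop

lemma bdd_int {h : ℝ → ℝ} (hm : Measurable h) {B : ℝ} (hB : ∀ y, |h y| ≤ B) {g : ℝ → ℝ}
    (hg : IntegrableOn g (Ioc (0 : ℝ) 1)) : IntegrableOn (fun y => h y * g y) (Ioc (0 : ℝ) 1) := by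
  refine Integrable.bdd_mul hg hm.aestronglyMeasurable (c := B) ?_
  exact Eventually.of_forall hB

theorem der_ok : TaskDer := by
  intro h hm ⟨B, hB⟩ r hr
  have hB0 : 0 ≤ B := (abs_nonneg _).trans (hB 0)
  constructor
  · refine key (s := univ) (bound := fun y => B * (√|r - y|)⁻¹) univ_mem ?_ ?_ ?_ ?_ ?_ ?_
    · intro x _
      exact (by fun_prop : Measurable fun y => h y * √|x - y|).aestronglyMeasurable
    · refine bdd_int hm hB ?_
      exact (Continuous.integrableOn_Icc (by fun_prop)).mono_set Ioc_subset_Icc_self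
    · have := meas_sg
      exact (by fun_prop : Measurable fun y => h y * (sg (r - y) / 2)).aestronglyMeasurable
    · have hne : ∀ᵐ y ∂(volume.restrict (Ioc (0 : ℝ) 1)), y ≠ r :=
        ae_restrict_of_ae (by simp [ae_iff, measure_singleton])
      filter_upwards [hne] with y hy x _
      have hp : 0 < |r - y| := abs_pos.2 (sub_ne_zero.2 (Ne.symm hy))
      rw [← mul_sub, norm_mul, Real.norm_eq_abs, Real.norm_eq_abs, Real.norm_eq_abs]
      have h1 := sqrt_sub_le (abs_nonneg (x - y)) hp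
      have h2 : |(|x - y| - |r - y|)| ≤ |x - r| := by
        have := abs_abs_sub_abs_le_abs_sub (x - y) (r - y)
        simpa using this
      calc |h y| * |(√|x - y| - √|r - y|)| ≤ B * ((√|r - y|)⁻¹ * |(|x - y| - |r - y|)|) :=
            mul_le_mul (hB y) h1 (abs_nonneg _) hB0
        _ ≤ B * ((√|r - y|)⁻¹ * |x - r|) := by gcongr
        _ = _ := by ring
    · exact (io_sqrt_abs r).const_mul B
    · have hne : ∀ᵐ y ∂(volume.restrict (Ioc (0 : ℝ) 1)), y ≠ r :=
        ae_restrict_of_ae (by simp [ae_iff, measure_singleton])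
      filter_upwards [hne] with y hy
      exact (deriv_sqrt_abs (sub_ne_zero.2 (Ne.symm hy))).const_mul (h y)
  · refine key (s := Ioi 0) (bound := fun y => B * (√r)⁻¹) (Ioi_mem_nhds hr) ?_ ?_ ?_ ?_ ?_ ?_
    · intro x _
      exact (by fun_prop : Measurable fun y => h y * √(x + y)).aestronglyMeasurable
    · refine bdd_int hm hB ?_
      exact (Continuous.integrableOn_Icc (by fun_prop)).mono_set Ioc_subset_Icc_self
    · exact (by fun_prop : Measurable fun y => h y * (1 / √(r + y) / 2)).aestronglyMeasurable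
    · filter_upwards [ae_restrict_mem measurableSet_Ioc] with y hy x hx
      have hy0 : 0 < y := hy.1
      have hx0 : 0 < x := hx
      have hp : 0 < r + y := by positivity
      rw [← mul_sub, norm_mul, Real.norm_eq_abs, Real.norm_eq_abs, Real.norm_eq_abs]
      have h1 := sqrt_sub_le (by positivity : 0 ≤ x + y) hp
      have h3 : (√(r + y))⁻¹ ≤ (√r)⁻¹ := by
        apply inv_anti₀ (Real.sqrt_pos.2 hr)
        exact Real.sqrt_le_sqrt (by linarith)
      have h4 : x + y - (r + y) = x - r := by ring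
      rw [h4] at h1
      calc |h y| * |√(x + y) - √(r + y)| ≤ B * ((√(r + y))⁻¹ * |x - r|) :=
            mul_le_mul (hB y) h1 (abs_nonneg _) hB0
        _ ≤ B * ((√r)⁻¹ * |x - r|) := by gcongr
        _ = _ := by ring
    · exact integrable_const _
    · filter_upwards [ae_restrict_mem measurableSet_Ioc] with y hy
      have hp : 0 < r + y := by have := hy.1; positivity
      have h0 : HasDerivAt (fun x : ℝ => x + y) 1 r := by
        simpa using (hasDerivAt_id r).add_const y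
      have h3 := (h0.sqrt hp.ne').const_mul (h y)
      have h5 : h y * (1 / √(r + y) / 2) = h y * (1 / (2 * √(r + y))) := by
        rw [div_div, mul_comm (√(r + y)) 2]
      rw [h5]
      exact h3

end Pool.Agent.H329R3.PM.DerTask
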