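import Mathlib
import Pool.Agent.H329R3.PM.Stmts

open MeasureTheory Set Filter Topology
open scoped RealInnerProductSpace

namespace Pool.Agent.H329R3.PM

theorem taskGrad : TaskGrad := by
  intro hRad hDer hKInt w hw x hx
  obtain ⟨B, hB⟩ := hw.bdd
  have hr : 0 < ‖x‖ := norm_pos_iff.2 hx
  set h : ℝ → ℝ := fun y => y * w y with hh
  have hm : Measurable h := measurable_id.mul hw.meas
  have hbd : ∀ y, |h y| ≤ B := by
    intro y
    by_cases hy : y ∈ Ioc (0 : ℝ) 1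
    · rw [hh]; simp only
      rw [abs_mul, abs_of_pos hy.1, abs_of_nonneg (hw.nonneg y)]
      calc y * w y ≤ 1 * w y := mul_le_mul_of_nonneg_right hy.2 (hw.nonneg y)
        _ = w y := one_mul _
        _ ≤ B := hB y
    · have : h y = 0 := by rw [hh]; simp only; rw [hw.supp y hy, mul_zero]
      rw [this, abs_zero]
      exact (hw.nonneg y).trans (hB y)
  have hint : ∀ g : ℝ → ℝ, IntegrableOn g (Ioc (0 : ℝ) 1) →
      IntegrableOn (fun y => h y * g y) (Ioc (0 : ℝ) 1) := by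
    intro g hg
    refine Integrable.bdd_mul (c := B) hg hm.aestronglyMeasurable ?_
    exact Filter.Eventually.of_forall fun y => by rw [Real.norm_eq_abs]; exact hbd y
  set F : ℝ → ℝ := fun r => (∫ y in Ioc (0 : ℝ) 1, h y * √(r + y)) -
    ∫ y in Ioc (0 : ℝ) 1, h y * √|r - y| with hF
  have hi1 : ∀ r : ℝ, IntegrableOn (fun y => h y * √(r + y)) (Ioc (0 : ℝ) 1) := fun r =>
    hint _ (Continuous.integrableOn_Ioc (by fun_prop))
  have hi2 : ∀ r : ℝ, IntegrableOn (fun y => h y * √|r - y|) (Ioc (0 : ℝ) 1) := fun r =>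
    hint _ (Continuous.integrableOn_Ioc (by fun_prop))
  have hi3 : ∀ r : ℝ, 0 < r → IntegrableOn (fun y => h y * (1 / √(r + y) / 2)) (Ioc (0 : ℝ) 1) := by
    intro r hr
    refine hint _ ?_
    refine IntegrableOn.mono_set (t := Icc (0 : ℝ) 1) ?_ Ioc_subset_Icc_self
    apply ContinuousOn.integrableOn_Icc
    refine ContinuousOn.div_const ?_ _
    refine ContinuousOn.div continuousOn_const (by fun_prop) ?_
    intro y hy
    exact (Real.sqrt_pos.2 (by linarith [hy.1])).ne'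
  have hi4 : ∀ r : ℝ, IntegrableOn (fun y => h y * (sg (r - y) / 2)) (Ioc (0 : ℝ) 1) := fun r =>
    hint _ ((hKInt.2.1 r).div_const 2)
  set Fd : ℝ → ℝ := fun r => (∫ y in Ioc (0 : ℝ) 1, h y * (1 / √(r + y) / 2)) -
    ∫ y in Ioc (0 : ℝ) 1, h y * (sg (r - y) / 2) with hFd
  have hFder : ∀ r, 0 < r → HasDerivAt F (Fd r) r := by
    intro r hr
    obtain ⟨d1, d2⟩ := hDer h hm ⟨B, hbd⟩ r hr
    exact d2.sub d1
  -- the formula for the potential
  have hPP : ∀ z : E 3, z ≠ 0 → PP w z = 4 * Real.pi / ‖z‖ * F ‖z‖ := by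
    intro z hz
    rw [(hRad w hw z).2.1 hz, hF]
    congr 1
    simp only
    rw [← integral_sub (hi1 ‖z‖) (hi2 ‖z‖)]
    refine setIntegral_congr_fun measurableSet_Ioc fun y _ => ?_
    simp only [hh]; ring
  -- the kernel
  have hS : Sop kk w ‖x‖ = (F ‖x‖ - ‖x‖ * Fd ‖x‖) / ‖x‖ ^ 3 := by
    have e1 : F ‖x‖ = ∫ y in Ioc (0 : ℝ) 1, (h y * √(‖x‖ + y) - h y * √|‖x‖ - y|) :=
      (integral_sub (hi1 ‖x‖) (hi2 ‖x‖)).symm
    have e2 : Fd ‖x‖ = ∫ y in Ioc (0 : ℝ) 1,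
        (h y * (1 / √(‖x‖ + y) / 2) - h y * (sg (‖x‖ - y) / 2)) :=
      (integral_sub (hi3 ‖x‖ hr) (hi4 ‖x‖)).symm
    have e3 : F ‖x‖ - ‖x‖ * Fd ‖x‖ = ∫ y in Ioc (0 : ℝ) 1,
        ((h y * √(‖x‖ + y) - h y * √|‖x‖ - y|) -
        ‖x‖ * (h y * (1 / √(‖x‖ + y) / 2) - h y * (sg (‖x‖ - y) / 2))) := by
      rw [e1, e2, ← integral_const_mul]
      exact (integral_sub ((hi1 ‖x‖).sub (hi2 ‖x‖))
        (((hi3 ‖x‖ hr).sub (hi4 ‖x‖)).const_mul ‖x‖)).symm
    rw [e3, Sop, ← integral_div]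
    refine setIntegral_congr_fun measurableSet_Ioc fun y _ => ?_
    simp only [hh, kk, kap]
    ring
  -- the radial function
  have hQ : HasDerivAt (fun r : ℝ => 4 * Real.pi / r * F r)
      (-(4 * Real.pi) / ‖x‖ ^ 2 * F ‖x‖ + 4 * Real.pi / ‖x‖ * Fd ‖x‖) ‖x‖ := by
    have h1 : HasDerivAt (fun r : ℝ => 4 * Real.pi / r) (-(4 * Real.pi) / ‖x‖ ^ 2) ‖x‖ := by
      have h0 : HasDerivAt (fun r : ℝ => 4 * Real.pi / r)
          ((0 * id ‖x‖ - 4 * Real.pi * 1) / (id ‖x‖) ^ 2) ‖x‖ :=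
        (hasDerivAt_const ‖x‖ (4 * Real.pi)).div (hasDerivAt_id ‖x‖) hr.ne'
      refine h0.congr_deriv ?_
      simp
    exact h1.mul (hFder ‖x‖ hr)
  have hnorm : HasFDerivAt (fun z : E 3 => ‖z‖) ((1 / ‖x‖) • innerSL ℝ x) x := by
    have h1 : HasFDerivAt (fun z : E 3 => ‖z‖ ^ 2) (2 • innerSL ℝ x) x :=
      (hasStrictFDerivAt_norm_sq x).hasFDerivAt
    have h2 := h1.sqrt (by positivity)
    have h3 : (fun z : E 3 => √(‖z‖ ^ 2)) = fun z : E 3 => ‖z‖ := by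
      funext z; exact Real.sqrt_sq (norm_nonneg z)
    rw [h3] at h2
    have h4 : ((1 / (2 * √(‖x‖ ^ 2))) • (2 • innerSL ℝ x : E 3 →L[ℝ] ℝ)) =
        (1 / ‖x‖) • innerSL ℝ x := by
      rw [Real.sqrt_sq (norm_nonneg x)]
      ext v
      simp only [smul_apply, innerSL_apply_apply, smul_eq_mul, nsmul_eq_mul]
      push_cast
      field_simp
    rw [h4] at h2
    exact h2
  have hcomp := hQ.comp_hasFDerivAt x hnorm
  rw [hasGradientAt_iff_hasFDerivAt]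
  have hev : PP w =ᶠ[𝓝 x] ((fun r : ℝ => 4 * Real.pi / r * F r) ∘ fun z : E 3 => ‖z‖) := by
    filter_upwards [isOpen_ne.mem_nhds hx] with z hz
    exact hPP z hz
  refine HasFDerivAt.congr_of_eventuallyEq ?_ hev
  have h5 : (InnerProductSpace.toDual ℝ (E 3)) ((-(4 * Real.pi) * Sop kk w ‖x‖) • x) =
      (-(4 * Real.pi) / ‖x‖ ^ 2 * F ‖x‖ + 4 * Real.pi / ‖x‖ * Fd ‖x‖) •
        ((1 / ‖x‖) • innerSL ℝ x : E 3 →L[ℝ] ℝ) := by
    rw [hS]
    ext v
    simp only [smul_apply, innerSL_apply_apply, smul_eq_mul,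
      InnerProductSpace.toDual_apply_apply, inner_smul_left]
    simp only [conj_trivial]
    field_simp
    ring
  rw [h5]
  exact hcomp

end Pool.Agent.H329R3.PM
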