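import Pool.Agent.H329R3.PM.Stmts

open MeasureTheory Set Filter Topology
open scoped RealInnerProductSpace

set_option autoImplicit false

namespace Pool.Agent.H329R3.PM.Grad0T

theorem dbound (t : ℝ) (ht : 0 < t) : |√(1 + t) - √|1 - t| - t| ≤ 2 * t ^ (9 / 4 : ℝ) := by
  rcases le_or_gt t 1 with h1 | h1
  · have e : |1 - t| = 1 - t := abs_of_nonneg (by linarith)
    rw [e]
    set p := √(1 + t) with hp
    set q := √(1 - t) with hq
    have hp2 : p ^ 2 = 1 + t := Real.sq_sqrt (by linarith)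
    have hq2 : q ^ 2 = 1 - t := Real.sq_sqrt (by linarith)
    have hp0 : 0 ≤ p := Real.sqrt_nonneg _
    have hq0 : 0 ≤ q := Real.sqrt_nonneg _
    have hp1 : 1 ≤ p := by
      rw [hp]; exact Real.one_le_sqrt.2 (by linarith)
    have hq1 : q ≤ 1 := by
      rw [hq]; exact Real.sqrt_le_one.2 (by linarith)
    -- t = (p^2-q^2)/2, p - q - t
    have hst : p * q ≤ 1 := by nlinarith [sq_nonneg (p - q)]
    have hpq : 1 - t ^ 2 ≤ p * q := by
      have h2 : (p * q) ^ 2 = 1 - t ^ 2 := by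
        rw [mul_pow, hp2, hq2]; ring
      have h3 : 0 ≤ p * q := mul_nonneg hp0 hq0
      nlinarith
    have hs : p + q ≤ 2 := by nlinarith [sq_nonneg (p - q), sq_nonneg (p + q - 2)]
    have hd : p - q - t = (p - q) * (2 - (p + q)) / 2 := by nlinarith
    have hdiff : (p - q) * (p + q) = 2 * t := by nlinarith
    have hpq0 : 0 ≤ p - q := by linarith
    have hpq1 : p - q ≤ 2 * t := by nlinarith
    have h4 : (2 - (p + q)) * (2 + (p + q)) = 2 * (1 - p * q) := by nlinarith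
    have h5 : 2 - (p + q) ≤ t ^ 2 := by nlinarith
    have h6 : 0 ≤ p - q - t := by rw [hd]; nlinarith
    rw [abs_of_nonneg h6]
    have h7 : p - q - t ≤ t ^ 3 := by
      rw [hd]
      have : (p - q) * (2 - (p + q)) ≤ 2 * t * t ^ 2 := by
        apply mul_le_mul hpq1 h5 (by linarith) (by linarith)
      nlinarith
    have h8 : t ^ (3 : ℕ) ≤ t ^ (9 / 4 : ℝ) := by
      rw [← Real.rpow_natCast]
      exact Real.rpow_le_rpow_of_exponent_ge ht h1 (by norm_num)
    have h9 : 0 ≤ t ^ (9 / 4 : ℝ) := Real.rpow_nonneg ht.le _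
    linarith
  · have e : |1 - t| = t - 1 := by rw [abs_sub_comm]; exact abs_of_nonneg (by linarith)
    rw [e]
    have h8 : t ≤ t ^ (9 / 4 : ℝ) := by
      nth_rw 1 [← Real.rpow_one t]
      exact Real.rpow_le_rpow_of_exponent_le h1.le (by norm_num)
    have h2 : √(1 + t) ≤ 2 * t := by
      rw [Real.sqrt_le_left (by linarith)]; nlinarith
    have h3 : √(t - 1) ≤ t := by
      rw [Real.sqrt_le_left (by linarith)]; nlinarith
    have h4 := Real.sqrt_nonneg (1 + t)
    have h5 := Real.sqrt_nonneg (t - 1)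
    rw [abs_le]; constructor <;> linarith

theorem Dbound (r y : ℝ) (hr : 0 < r) (hy : 0 < y) :
    |y * (√(r + y) - √|r - y|) - r * √y| ≤ 2 * r ^ (9 / 4 : ℝ) * y ^ (-(3 / 4) : ℝ) := by
  obtain ⟨t, rfl⟩ : ∃ t, r = t * y := ⟨r / y, by field_simp⟩
  have ht : 0 < t := by
    rcases le_or_gt t 0 with h | h
    · nlinarith
    · exact h
  have e1 : √(t * y + y) = √y * √(1 + t) := by
    rw [← Real.sqrt_mul hy.le]; congr 1; ring
  have e2 : √|t * y - y| = √y * √|1 - t| := by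
    rw [← Real.sqrt_mul hy.le]
    congr 1
    rw [show t * y - y = y * (t - 1) by ring, abs_mul, abs_of_pos hy, abs_sub_comm]
  have e3 : y * (√(t * y + y) - √|t * y - y|) - t * y * √y =
      y * √y * (√(1 + t) - √|1 - t| - t) := by
    rw [e1, e2]; ring
  have hyy : 0 ≤ y * √y := mul_nonneg hy.le (Real.sqrt_nonneg _)
  rw [e3, abs_mul, abs_of_nonneg hyy]
  calc y * √y * |√(1 + t) - √|1 - t| - t| ≤ y * √y * (2 * t ^ (9 / 4 : ℝ)) :=
        mul_le_mul_of_nonneg_left (dbound t ht) hyy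
    _ = 2 * (t * y) ^ (9 / 4 : ℝ) * y ^ (-(3 / 4) : ℝ) := by
        rw [Real.mul_rpow ht.le hy.le]
        have : y * √y = y ^ (9 / 4 : ℝ) * y ^ (-(3 / 4) : ℝ) := by
          rw [← Real.rpow_add hy, Real.sqrt_eq_rpow]
          nth_rw 1 [← Real.rpow_one y]
          rw [← Real.rpow_add hy]
          norm_num
        rw [this]; ring

theorem key (hR : Rad) (w : ℝ → ℝ) (hw : Prof w) :
    ∃ K : ℝ, 0 ≤ K ∧ ∀ x : E 3, |PP w x - PP w 0| ≤ K * ‖x‖ ^ (5 / 4 : ℝ) := by
  obtain ⟨B, hB⟩ := hw.bdd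
  have hB0 : 0 ≤ B := (hw.nonneg 0).trans (hB 0)
  have hI : IntegrableOn (fun y : ℝ => y ^ (-(3 / 4) : ℝ)) (Ioc (0 : ℝ) 1) := by
    rw [← intervalIntegrable_iff_integrableOn_Ioc_of_le zero_le_one]
    exact intervalIntegral.intervalIntegrable_rpow' (by norm_num)
  set I := ∫ y in Ioc (0 : ℝ) 1, y ^ (-(3 / 4) : ℝ) with hIdef
  have hI0 : 0 ≤ I := setIntegral_nonneg measurableSet_Ioc fun y hy =>
    Real.rpow_nonneg hy.1.le _
  refine ⟨4 * Real.pi * (2 * B * I), by positivity, fun x => ?_⟩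
  by_cases hx : x = 0
  · subst hx; simp
  obtain ⟨-, h1, -⟩ := hR w hw x
  obtain ⟨-, -, h0⟩ := hR w hw 0
  rw [h1 hx, h0 rfl]
  set r := ‖x‖ with hrdef
  have hr : 0 < r := norm_pos_iff.2 hx
  have hwB : ∀ y, |w y| ≤ B := fun y => by rw [abs_of_nonneg (hw.nonneg y)]; exact hB y
  have i1 : IntegrableOn (fun y => (y * w y) * (√(r + y) - √|r - y|)) (Ioc (0 : ℝ) 1) := by
    refine Measure.integrableOn_of_bounded (M := B * (√(r + 1) + √(r + 1))) (by simp) ?_ ?_
    · exact ((measurable_id.mul hw.meas).mul (by fun_prop)).aestronglyMeasurable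
    · filter_upwards [ae_restrict_mem measurableSet_Ioc] with y hy
      rw [Real.norm_eq_abs, abs_mul, abs_mul]
      have a1 : |y| * |w y| ≤ B := by
        have : |y| ≤ 1 := by rw [abs_of_pos hy.1]; exact hy.2
        calc |y| * |w y| ≤ 1 * B := mul_le_mul this (hwB y) (abs_nonneg _) zero_le_one
          _ = B := one_mul _
      have a2 : |√(r + y) - √(|r - y|)| ≤ √(r + 1) + √(r + 1) := by
        have b1 : √(r + y) ≤ √(r + 1) := Real.sqrt_le_sqrt (by linarith [hy.2])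
        have b2 : √|r - y| ≤ √(r + 1) := Real.sqrt_le_sqrt (by
          rw [abs_le]; constructor <;> linarith [hy.1, hy.2])
        have b3 := Real.sqrt_nonneg (r + y)
        have b4 := Real.sqrt_nonneg |r - y|
        rw [abs_le]; constructor <;> linarith
      exact mul_le_mul a1 a2 (abs_nonneg _) hB0
  have i2 : IntegrableOn (fun y => √y * w y) (Ioc (0 : ℝ) 1) := by
    refine Measure.integrableOn_of_bounded (M := B) (by simp) ?_ ?_
    · exact ((by fun_prop : Measurable fun y : ℝ => √y).mul hw.meas).aestronglyMeasurable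
    · filter_upwards [ae_restrict_mem measurableSet_Ioc] with y hy
      rw [Real.norm_eq_abs, abs_mul]
      have : |√y| ≤ 1 := by
        rw [abs_of_nonneg (Real.sqrt_nonneg _)]; exact Real.sqrt_le_one.2 hy.2
      calc |√y| * |w y| ≤ 1 * B := mul_le_mul this (hwB y) (abs_nonneg _) zero_le_one
        _ = B := one_mul _
  have e : (4 * Real.pi / r) * (∫ y in Ioc (0 : ℝ) 1, (y * w y) * (√(r + y) - √|r - y|)) -
      4 * Real.pi * ∫ y in Ioc (0 : ℝ) 1, √y * w y =
      (4 * Real.pi / r) * ∫ y in Ioc (0 : ℝ) 1,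
        w y * (y * (√(r + y) - √|r - y|) - r * √y) := by
    have : ∫ y in Ioc (0 : ℝ) 1, w y * (y * (√(r + y) - √|r - y|) - r * √y) =
        (∫ y in Ioc (0 : ℝ) 1, (y * w y) * (√(r + y) - √|r - y|)) -
          r * ∫ y in Ioc (0 : ℝ) 1, √y * w y := by
      rw [← integral_const_mul, ← integral_sub i1 (i2.const_mul r)]
      congr 1; funext y; ring
    rw [this]; field_simp
  rw [e, abs_mul, abs_of_pos (by positivity)]
  have hb : ‖∫ y in Ioc (0 : ℝ) 1, w y * (y * (√(r + y) - √|r - y|) - r * √y)‖ ≤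
      ∫ y in Ioc (0 : ℝ) 1, (B * (2 * r ^ (9 / 4 : ℝ))) * y ^ (-(3 / 4) : ℝ) := by
    refine norm_integral_le_of_norm_le (hI.const_mul _) ?_
    filter_upwards [ae_restrict_mem measurableSet_Ioc] with y hy
    rw [Real.norm_eq_abs, abs_mul]
    calc |w y| * |y * (√(r + y) - √|r - y|) - r * √y| ≤
          B * (2 * r ^ (9 / 4 : ℝ) * y ^ (-(3 / 4) : ℝ)) :=
          mul_le_mul (hwB y) (Dbound r y hr hy.1) (abs_nonneg _) hB0
      _ = _ := by ring
  rw [integral_const_mul, ← hIdef, Real.norm_eq_abs] at hb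
  calc 4 * Real.pi / r * |∫ y in Ioc (0 : ℝ) 1, w y * (y * (√(r + y) - √|r - y|) - r * √y)| ≤
        4 * Real.pi / r * (B * (2 * r ^ (9 / 4 : ℝ)) * I) :=
        mul_le_mul_of_nonneg_left hb (by positivity)
    _ = 4 * Real.pi * (2 * B * I) * r ^ (5 / 4 : ℝ) := by
        have : r ^ (9 / 4 : ℝ) = r * r ^ (5 / 4 : ℝ) := by
          nth_rw 2 [← Real.rpow_one r]
          rw [← Real.rpow_add hr]; norm_num
        rw [this]; field_simp

theorem grad0 (hR : Rad) : Grad0 := by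
  intro w hw
  obtain ⟨K, hK, hk⟩ := key hR w hw
  rw [hasGradientAt_iff_isLittleO_nhds_zero]
  have hb : (fun h : E 3 => PP w (0 + h) - PP w 0 - ⟪(0 : E 3), h⟫) =O[𝓝 0]
      fun h : E 3 => ‖h‖ ^ (5 / 4 : ℝ) := by
    refine Asymptotics.IsBigO.of_bound K (Eventually.of_forall fun h => ?_)
    rw [inner_zero_left, sub_zero, zero_add, Real.norm_eq_abs, Real.norm_eq_abs,
      abs_of_nonneg (Real.rpow_nonneg (norm_nonneg h) _)]
    exact hk h
  refine hb.trans_isLittleO ?_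
  rw [Asymptotics.isLittleO_iff]
  intro c hc
  have : ∀ᶠ h : E 3 in 𝓝 0, ‖h‖ < c ^ 4 := by
    have h1 : Tendsto (fun h : E 3 => ‖h‖) (𝓝 0) (𝓝 0) := by
      simpa using (continuous_norm (E := E 3)).tendsto 0
    exact h1.eventually (gt_mem_nhds (by positivity))
  filter_upwards [this] with h hh
  rw [Real.norm_eq_abs, abs_of_nonneg (Real.rpow_nonneg (norm_nonneg h) _)]
  rcases eq_or_lt_of_le (norm_nonneg h) with h0 | h0
  · rw [← h0]; simp
  · have e1 : ‖h‖ ^ (5 / 4 : ℝ) = ‖h‖ ^ (1 / 4 : ℝ) * ‖h‖ := by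
      nth_rw 3 [← Real.rpow_one ‖h‖]
      rw [← Real.rpow_add h0]; norm_num
    have e2 : ‖h‖ ^ (1 / 4 : ℝ) ≤ c := by
      calc ‖h‖ ^ (1 / 4 : ℝ) ≤ (c ^ 4) ^ (1 / 4 : ℝ) :=
            Real.rpow_le_rpow h0.le hh.le (by norm_num)
        _ = c := by
            rw [← Real.rpow_natCast, ← Real.rpow_mul hc.le]; norm_num
    rw [e1]
    exact mul_le_mul_of_nonneg_right e2 (norm_nonneg _)

end Pool.Agent.H329R3.PM.Grad0T

namespace Pool.Agent.H329R3.PM

theorem taskGrad0 : TaskGrad0 := Grad0T.grad0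

end Pool.Agent.H329R3.PM
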