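import Pool.Agent.H329R3.PM.All0
import Pool.Agent.H329R3.PM.TaskRad

open MeasureTheory Set Filter Topology
open scoped RealInnerProductSpace

namespace Pool.Agent.H329R3.PM

theorem exists_profile_all :
    ∃ (F : E 3 → ℝ) (G : E 3 → E 3), Profile F G ∧ ¬ (F =ᵐ[volume] 0) :=
  exists_profile0 TRad.t

end Pool.Agent.H329R3.PM
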