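import Pool.Agent.H329R3.PM.Stmts

set_option autoImplicit false

open MeasureTheory Set Filter Topology
open scoped RealInnerProductSpace

namespace Pool.Agent.H329R3.PM

namespace ChainAux

/-- integrability on space-time of `F(ξ) Q(ξ,t)`, `Q` continuous -/
lemma int_prod {F : E 3 → ℝ} (hF : Measurable F) (h0 : ∀ x, 0 ≤ F x) {B : ℝ} (hB : ∀ x, F x ≤ B)
    (hs : ∀ x, 1 < ‖x‖ → F x = 0) (T : ℝ) {Q : E 3 × ℝ → ℝ} (hQ : Continuous Q) :
    Integrable (fun p : ℝ × E 3 => F p.2 * Q (p.2, p.1))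
      ((volume.restrict (Ioo 0 T)).prod volume) := by
  have hB0 : 0 ≤ B := (h0 0).trans (hB 0)
  obtain ⟨M, hM⟩ := ((isCompact_closedBall (0 : E 3) 1).prod (isCompact_Icc (a := (0:ℝ)) (b := T))).exists_bound_of_continuousOn
    hQ.continuousOn
  have hM0 : 0 ≤ |M| := abs_nonneg M
  have hmeas : AEStronglyMeasurable (fun p : ℝ × E 3 => F p.2 * Q (p.2, p.1))
      ((volume.restrict (Ioo 0 T)).prod volume) := by
    apply Measurable.aestronglyMeasurable
    exact (hF.comp measurable_snd).mul (hQ.measurable.comp (measurable_snd.prodMk measurable_fst))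
  have hset : MeasurableSet ((Ioo 0 T) ×ˢ (Metric.closedBall (0 : E 3) 1)) :=
    measurableSet_Ioo.prod Metric.isClosed_closedBall.measurableSet
  have hfin : ((volume.restrict (Ioo 0 T)).prod (volume : Measure (E 3)))
      ((Ioo 0 T) ×ˢ (Metric.closedBall (0 : E 3) 1)) ≠ ⊤ := by
    rw [Measure.prod_prod]
    refine ENNReal.mul_ne_top ?_ ?_
    · rw [Measure.restrict_apply measurableSet_Ioo]
      simp
    · exact (isCompact_closedBall (0 : E 3) 1).measure_lt_top.ne
  have hb : ∀ p ∈ (Ioo 0 T) ×ˢ (Metric.closedBall (0 : E 3) 1),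
      ‖F p.2 * Q (p.2, p.1)‖ ≤ B * |M| := by
    rintro ⟨t, x⟩ ⟨ht, hx⟩
    have h1 := hM (x, t) ⟨hx, Ioo_subset_Icc_self ht⟩
    rw [norm_mul, Real.norm_of_nonneg (h0 x)]
    exact mul_le_mul (hB x) (h1.trans (le_abs_self M)) (norm_nonneg _) hB0
  have hIon : IntegrableOn (fun p : ℝ × E 3 => F p.2 * Q (p.2, p.1))
      ((Ioo 0 T) ×ˢ (Metric.closedBall (0 : E 3) 1)) ((volume.restrict (Ioo 0 T)).prod volume) := by
    refine Measure.integrableOn_of_bounded (M := B * |M|) hfin hmeas ?_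
    exact (ae_restrict_mem hset).mono hb
  have hprod : (volume.restrict (Ioo 0 T)).prod (volume : Measure (E 3)) =
      ((volume.restrict (Ioo 0 T)).prod (volume : Measure (E 3))).restrict ((Ioo 0 T) ×ˢ univ) := by
    rw [← Measure.prod_restrict, Measure.restrict_restrict measurableSet_Ioo, inter_self,
      Measure.restrict_univ]
  rw [hprod]
  change IntegrableOn _ _ _
  refine hIon.of_forall_sdiff_eq_zero (measurableSet_Ioo.prod MeasurableSet.univ) ?_
  rintro ⟨t, x⟩ ⟨⟨ht, -⟩, hn⟩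
  have : 1 < ‖x‖ := by
    by_contra hle
    push Not at hle
    exact hn ⟨ht, by simpa using hle⟩
  simp [hs x this]

/-- integrability in space -/
lemma int_sp {F : E 3 → ℝ} (hF : Measurable F) (h0 : ∀ x, 0 ≤ F x) {B : ℝ} (hB : ∀ x, F x ≤ B)
    (hs : ∀ x, 1 < ‖x‖ → F x = 0) {g : E 3 → ℝ} (hg : Continuous g) :
    Integrable (fun x => F x * g x) := by
  have hB0 : 0 ≤ B := (h0 0).trans (hB 0)
  obtain ⟨M, hM⟩ := (isCompact_closedBall (0 : E 3) 1).exists_bound_of_continuousOn hg.continuousOn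
  have hIon : IntegrableOn (fun x => F x * g x) (Metric.closedBall (0 : E 3) 1) := by
    refine Measure.integrableOn_of_bounded (M := B * |M|)
      (isCompact_closedBall (0 : E 3) 1).measure_lt_top.ne
      (hF.mul hg.measurable).aestronglyMeasurable ?_
    refine (ae_restrict_mem Metric.isClosed_closedBall.measurableSet).mono ?_
    intro x hx
    rw [norm_mul, Real.norm_of_nonneg (h0 x)]
    exact mul_le_mul (hB x) ((hM x hx).trans (le_abs_self M)) (norm_nonneg _) hB0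
  rw [← integrableOn_univ]
  refine hIon.of_forall_sdiff_eq_zero MeasurableSet.univ ?_
  rintro x ⟨-, hn⟩
  have : 1 < ‖x‖ := by
    by_contra hle
    push Not at hle
    exact hn (by simpa using hle)
  simp [hs x this]

/-- the scale -/
noncomputable def c (t : ℝ) : ℝ := √(1 + |t|)

lemma c_pos (t : ℝ) : 0 < c t := by
  unfold c
  apply Real.sqrt_pos.2
  have := abs_nonneg t
  linarith

lemma c_cont : Continuous c := by
  unfold c
  fun_prop

lemma c_eq {t : ℝ} (ht : 0 ≤ t) : c t = √(1 + t) := by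
  unfold c
  rw [abs_of_nonneg ht]

lemma rp_half {t : ℝ} (ht : 0 ≤ t) : (1 + t) ^ (-(1 / 2) : ℝ) = (c t)⁻¹ := by
  rw [c_eq ht, Real.rpow_neg (by linarith), ← Real.sqrt_eq_rpow]

lemma rp_c {t : ℝ} (ht : 0 ≤ t) : 1 + t = (c t) ^ 2 := by
  rw [c_eq ht, Real.sq_sqrt (by linarith)]

lemma rp_three {t : ℝ} (ht : 0 ≤ t) : (1 + t) ^ (-(3 / 2) : ℝ) = ((c t) ^ 3)⁻¹ := by
  rw [Real.rpow_neg (by linarith), rp_c ht, ← Real.rpow_natCast, ← Real.rpow_natCast,
    ← Real.rpow_mul (c_pos t).le]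
  norm_num

lemma rp_two {t : ℝ} (ht : 0 ≤ t) : (1 + t) ^ (-2 : ℝ) = ((c t) ^ 4)⁻¹ := by
  rw [Real.rpow_neg (by linarith), rp_c ht, ← Real.rpow_natCast, ← Real.rpow_natCast,
    ← Real.rpow_mul (c_pos t).le]
  norm_num

lemma c_deriv {t : ℝ} (ht : 0 < t) : HasDerivAt c ((c t)⁻¹ / 2) t := by
  have h1 : HasDerivAt (fun s : ℝ => √(1 + s)) (1 / (2 * √(1 + t))) t := by
    have := (((hasDerivAt_id t).const_add 1)).sqrt (by simp only [id]; linarith)
    simpa using this
  have h2 : c =ᶠ[𝓝 t] fun s : ℝ => √(1 + s) := by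
    filter_upwards [Ioi_mem_nhds ht] with s hs
    exact c_eq (le_of_lt hs)
  refine (h1.congr_of_eventuallyEq h2).congr_deriv ?_
  rw [c_eq ht.le]
  field_simp

lemma cov (g : E 3 → ℝ) (t : ℝ) : ∫ x, g x = (c t) ^ 3 * ∫ ξ, g (c t • ξ) := by
  have h := Measure.integral_comp_smul (volume : Measure (E 3)) g (c t)
  have hf : Module.finrank ℝ (E 3) = 3 := by simp
  rw [h, hf, abs_of_pos (inv_pos.2 (pow_pos (c_pos t) 3)), smul_eq_mul, ← mul_assoc,
    mul_inv_cancel₀ (pow_pos (c_pos t) 3).ne', one_mul]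

end ChainAux

open ChainAux

theorem taskChain : TaskChain := by
  rintro F hF h0 ⟨B, hB⟩ hs T hT φ ⟨hφ, -, δ, hδ, hvan⟩
  have hfd : Continuous (fderiv ℝ φ) := hφ.continuous_fderiv (by norm_num)
  have hdiff : Differentiable ℝ φ := hφ.differentiable (by norm_num)
  -- the two integrands after the substitution
  set Q1 : E 3 × ℝ → ℝ := fun p => fderiv ℝ φ (c p.2 • p.1, p.2) (0, 1) with hQ1
  set Q2 : E 3 × ℝ → ℝ := fun p => -(1 / 2) * (c p.2)⁻¹ * fderiv ℝ φ (c p.2 • p.1, p.2) (p.1, 0)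
    with hQ2
  have cinv : Continuous fun t : ℝ => (c t)⁻¹ := c_cont.inv₀ (fun t => (c_pos t).ne')
  have harg : Continuous fun p : E 3 × ℝ => (c p.2 • p.1, p.2) :=
    ((c_cont.comp continuous_snd).smul continuous_fst).prodMk continuous_snd
  have hQ1c : Continuous Q1 := (hfd.comp harg).clm_apply continuous_const
  have hQ2c : Continuous Q2 :=
    (continuous_const.mul (cinv.comp continuous_snd)).mul
      ((hfd.comp harg).clm_apply (continuous_fst.prodMk continuous_const))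
  -- first integral
  have hA : ∀ t ∈ Ioo 0 T, ∫ x : E 3, selfSim F x t * deriv (fun t' => φ (x, t')) t =
      ∫ ξ : E 3, F ξ * Q1 (ξ, t) := by
    intro t ht
    rw [cov _ t, ← integral_const_mul]
    congr 1
    funext ξ
    have e1 : deriv (fun t' => φ (c t • ξ, t')) t = fderiv ℝ φ (c t • ξ, t) (0, 1) := by
      have h1 : HasDerivAt (fun t' : ℝ => (c t • ξ, t')) ((0 : E 3), (1 : ℝ)) t :=
        (hasDerivAt_const t (c t • ξ)).prodMk (hasDerivAt_id t)
      exact ((hdiff (c t • ξ, t)).hasFDerivAt.comp_hasDerivAt t h1).deriv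
    simp only [selfSim, hQ1, e1]
    rw [rp_three ht.1.le, rp_half ht.1.le, smul_smul, inv_mul_cancel₀ (c_pos t).ne', one_smul]
    have := (c_pos t).ne'
    field_simp
  have hBi : ∀ t ∈ Ioo 0 T, ∫ x : E 3, (-(1 / 2) * (1 + t) ^ (-2 : ℝ) *
        F ((1 + t) ^ (-(1 / 2) : ℝ) • x)) *
        ⟪(1 + t) ^ (-(1 / 2) : ℝ) • x, gradient (fun x' => φ (x', t)) x⟫ =
      ∫ ξ : E 3, F ξ * Q2 (ξ, t) := by
    intro t ht
    rw [cov _ t, ← integral_const_mul]
    congr 1
    funext ξ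
    have e1 : ⟪ξ, gradient (fun x' => φ (x', t)) (c t • ξ)⟫ =
        fderiv ℝ φ (c t • ξ, t) (ξ, 0) := by
      rw [real_inner_comm]
      unfold gradient
      rw [InnerProductSpace.toDual_symm_apply]
      have h1 : HasFDerivAt (fun x' : E 3 => (x', t))
          ((ContinuousLinearMap.id ℝ (E 3)).prod (0 : E 3 →L[ℝ] ℝ)) (c t • ξ) :=
        (hasFDerivAt_id (c t • ξ)).prodMk (hasFDerivAt_const t (c t • ξ))
      have h2 := (hdiff (c t • ξ, t)).hasFDerivAt.comp (c t • ξ) h1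
      have h3 : fderiv ℝ (fun x' : E 3 => φ (x', t)) (c t • ξ) = _ := h2.fderiv
      rw [h3]
      rfl
    simp only [hQ2]
    rw [rp_two ht.1.le, rp_half ht.1.le, smul_smul, inv_mul_cancel₀ (c_pos t).ne', one_smul, e1]
    have := (c_pos t).ne'
    field_simp
  rw [setIntegral_congr_fun measurableSet_Ioo hA, setIntegral_congr_fun measurableSet_Ioo hBi]
  have i1 := (int_prod hF h0 hB hs T hQ1c)
  have i2 := (int_prod hF h0 hB hs T hQ2c)
  have j1 : Integrable (fun t => ∫ ξ : E 3, F ξ * Q1 (ξ, t)) (volume.restrict (Ioo 0 T)) :=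
    i1.integral_prod_left
  have j2 : Integrable (fun t => ∫ ξ : E 3, F ξ * Q2 (ξ, t)) (volume.restrict (Ioo 0 T)) :=
    i2.integral_prod_left
  rw [← integral_sub j1 j2]
  -- combine
  set P : E 3 × ℝ → ℝ := fun p => Q1 p - Q2 p with hP
  have hPc : Continuous P := hQ1c.sub hQ2c
  have e3 : ∀ t : ℝ, (∫ ξ : E 3, F ξ * Q1 (ξ, t)) - ∫ ξ : E 3, F ξ * Q2 (ξ, t) =
      ∫ ξ : E 3, F ξ * P (ξ, t) := by
    intro t
    rw [← integral_sub]
    · congr 1; funext ξ; simp only [hP]; ring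
    · exact int_sp hF h0 hB hs (g := fun ξ => Q1 (ξ, t)) (hQ1c.comp (continuous_id.prodMk continuous_const))
    · exact int_sp hF h0 hB hs (g := fun ξ => Q2 (ξ, t)) (hQ2c.comp (continuous_id.prodMk continuous_const))
  simp_rw [e3]
  rw [integral_integral_swap (f := fun t ξ => F ξ * P (ξ, t)) (int_prod hF h0 hB hs T hPc)]
  -- the inner integral
  have e4 : ∀ ξ : E 3, ∫ t in Ioo 0 T, F ξ * P (ξ, t) = - (F ξ * φ (ξ, 0)) := by
    intro ξ
    rw [integral_const_mul, ← integral_Ioc_eq_integral_Ioo, ← intervalIntegral.integral_of_le hT.le]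
    have hcont : Continuous fun t : ℝ => φ (c t • ξ, t) :=
      hφ.continuous.comp ((c_cont.smul continuous_const).prodMk continuous_id)
    have hder : ∀ t ∈ Ioo 0 T, HasDerivAt (fun t : ℝ => φ (c t • ξ, t)) (P (ξ, t)) t := by
      intro t ht
      have h1 : HasDerivAt (fun t' : ℝ => (c t' • ξ, t')) (((c t)⁻¹ / 2) • ξ, (1 : ℝ)) t :=
        ((c_deriv ht.1).smul_const ξ).prodMk (hasDerivAt_id t)
      have h0' : HasFDerivAt φ (fderiv ℝ φ (c t • ξ, t)) ((fun t' : ℝ => (c t' • ξ, t')) t) :=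
        (hdiff _).hasFDerivAt
      have h2 := HasFDerivAt.comp_hasDerivAt (f := fun t' : ℝ => (c t' • ξ, t')) t h0' h1
      refine h2.congr_deriv ?_
      have h3 : ((((c t)⁻¹ / 2) • ξ, (1 : ℝ)) : E 3 × ℝ) =
          (0, 1) + ((c t)⁻¹ / 2) • ((ξ, 0) : E 3 × ℝ) := by
        ext <;> simp
      rw [h3, map_add, map_smul]
      simp only [hP, hQ1, hQ2, smul_eq_mul]
      ring
    rw [intervalIntegral.integral_eq_sub_of_hasDerivAt_of_le hT.le hcont.continuousOn hder
      ((hPc.comp (continuous_const.prodMk continuous_id)).intervalIntegrable _ _)]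
    have hTv : φ (c T • ξ, T) = 0 := hvan T ⟨by linarith, le_rfl⟩ _
    have hc0 : c 0 = 1 := by unfold c; simp
    rw [hTv, hc0, one_smul]; ring
  simp_rw [e4]
  rw [integral_neg]
  ring

end Pool.Agent.H329R3.PM
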