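import Pool.Agent.H329R3.PM.Stmts

open MeasureTheory Set Filter Topology

namespace Pool.Agent.H329R3.PM

theorem Good.mono {k : ℝ → ℝ → ℝ} {m M M' : ℝ} {w : ℝ → ℝ} (h : Good k m M w) (hM : M ≤ M') :
    Good k m M' w := ⟨h.prof, h.lower, fun r hr => (h.upper r hr).trans hM, h.sub⟩

theorem taskIter : TaskIter := by
  intro hstep k hk hone
  obtain ⟨c, C, hc, h1⟩ := hone
  set m : ℝ := 1 / c with hm
  set M0 : ℝ := 1 / c ^ 2 * C with hM0
  have hm0 : 0 < m := by positivity
  have hcC : c ≤ C := by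
    have := h1 1 ⟨by norm_num, le_refl _⟩
    linarith [this.1, this.2]
  have hmM : m ≤ M0 := by
    rw [hm, hM0]
    have : 1 / c = 1 / c ^ 2 * c := by field_simp
    rw [this]
    gcongr
  have hM00 : 0 < M0 := lt_of_lt_of_le hm0 hmM
  -- the initial function
  set w0 : ℝ → ℝ := (Ioc (0 : ℝ) 1).indicator (fun _ => 1 / c ^ 2) with hw0
  have hS0 : ∀ r, Sop k w0 r = 1 / c ^ 2 * ∫ y in Ioc (0 : ℝ) 1, k r y := by
    intro r
    unfold Sop
    rw [← integral_const_mul]
    refine setIntegral_congr_fun measurableSet_Ioc (fun y hy => ?_)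
    simp only [hw0, indicator_of_mem hy]
    ring
  have hg0 : Good k m M0 w0 := by
    refine ⟨⟨measurable_const.indicator measurableSet_Ioc, ?_, ⟨1 / c ^ 2, ?_⟩, ?_⟩, ?_, ?_, ?_⟩
    · intro y; exact indicator_nonneg (fun _ _ => by positivity) y
    · intro y
      by_cases hy : y ∈ Ioc (0 : ℝ) 1
      · simp [hw0, hy.1, hy.2]
      · simp only [hw0, indicator_of_notMem hy]; positivity
    · intro y hy; simp only [hw0, indicator_of_notMem hy]
    · intro r hr
      rw [hS0, hm]
      have : 1 / c = 1 / c ^ 2 * c := by field_simp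
      rw [this]
      gcongr
      exact (h1 r hr).1
    · intro r hr
      rw [hS0, hM0]
      gcongr
      exact (h1 r hr).2
    · intro r hr
      rw [hS0]
      have h2 : m ≤ 1 / c ^ 2 * ∫ y in Ioc (0 : ℝ) 1, k r y := by
        have : m = 1 / c ^ 2 * c := by rw [hm]; field_simp
        rw [this]
        gcongr
        exact (h1 r hr).1
      have h3 : w0 r = m ^ 2 := by
        simp only [hw0, indicator_of_mem hr, hm]
        field_simp
      rw [h3]
      gcongr
  -- the sequence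
  set Mn : ℕ → ℝ := fun n => M0 * (2 - (1 / 2) ^ n) with hMn
  set ep : ℕ → ℝ := fun n => (1 / 2) ^ n / 8 with hep
  set an : ℕ → ℝ := fun n => (1 / 2) ^ (n + 1) with han
  have hpow : ∀ n : ℕ, 0 < (1 / 2 : ℝ) ^ n ∧ (1 / 2 : ℝ) ^ n ≤ 1 := fun n =>
    ⟨by positivity, pow_le_one₀ (by norm_num) (by norm_num)⟩
  have key : ∀ n (w : {w // Good k m (Mn n) w}), ∃ w' : {w // Good k m (Mn (n + 1)) w},
      (∀ r ∈ Ioc (0 : ℝ) 1, |Sop k w'.1 r - Sop k w.1 r| ≤ 2 * ep n * Sop k w.1 r) ∧
      ∀ y ∈ Ioc (an n) 1, w'.1 y = 0 ∨ (0 < w.1 y ∧ w'.1 y = (1 + ep n) * (Sop k w.1 y) ^ 2) := by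
    intro n w
    obtain ⟨p1, p2⟩ := hpow n
    obtain ⟨w', h2, h3, h4⟩ := hstep k hk m (Mn n) (ep n) (an n) hm0 (by simp only [hep]; positivity)
      (by simp only [hep]; linarith) ⟨by simp only [han]; positivity, by
        simp only [han, pow_succ]; linarith⟩ w.1 w.2
    refine ⟨⟨w', h2.mono ?_⟩, h3, h4⟩
    simp only [hMn, hep, pow_succ]
    have h5 : (2 - (1 / 2 : ℝ) ^ n) * (1 + 2 * ((1 / 2 : ℝ) ^ n / 8)) ≤
        2 - (1 / 2 : ℝ) ^ n * (1 / 2) := by
      nlinarith [mul_pos p1 p1]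
    calc M0 * (2 - (1 / 2) ^ n) * (1 + 2 * ((1 / 2) ^ n / 8))
        = M0 * ((2 - (1 / 2) ^ n) * (1 + 2 * ((1 / 2) ^ n / 8))) := by ring
      _ ≤ _ := by gcongr
  choose next hnext using key
  have hM0' : Mn 0 = M0 := by simp only [hMn, pow_zero]; ring
  let W : (n : ℕ) → {w // Good k m (Mn n) w} := fun n =>
    Nat.rec (motive := fun n => {w // Good k m (Mn n) w}) ⟨w0, hM0' ▸ hg0⟩
      (fun n w => next n w) n
  have hW : ∀ n, W (n + 1) = next n (W n) := fun n => rfl
  have hd : ∀ n, ∀ r ∈ Ioc (0 : ℝ) 1,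
      |Sop k (W (n + 1)).1 r - Sop k (W n).1 r| ≤ 2 * ep n * Sop k (W n).1 r := by
    intro n; rw [hW]; exact (hnext n (W n)).1
  have he : ∀ n, ∀ y ∈ Ioc (an n) 1, (W (n + 1)).1 y = 0 ∨
      (0 < (W n).1 y ∧ (W (n + 1)).1 y = (1 + ep n) * (Sop k (W n).1 y) ^ 2) := by
    intro n; rw [hW]; exact (hnext n (W n)).2
  have hup : ∀ n, ∀ r ∈ Ioc (0 : ℝ) 1, Sop k (W n).1 r ≤ 2 * M0 := by
    intro n r hr
    refine ((W n).2.upper r hr).trans ?_
    simp only [hMn]
    nlinarith [(hpow n).1]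
  have hlo : ∀ n, ∀ r ∈ Ioc (0 : ℝ) 1, m ≤ Sop k (W n).1 r := fun n r hr => (W n).2.lower r hr
  -- limits of the potentials
  have hΘ : ∀ r, ∃ l, r ∈ Ioc (0 : ℝ) 1 → Tendsto (fun n => Sop k (W n).1 r) atTop (𝓝 l) := by
    intro r
    by_cases hr : r ∈ Ioc (0 : ℝ) 1
    · have hcs : CauchySeq (fun n => Sop k (W n).1 r) := by
        refine cauchySeq_of_le_geometric (1 / 2) (M0 / 2) (by norm_num) (fun n => ?_)
        rw [Real.dist_eq, abs_sub_comm]
        refine (hd n r hr).trans ?_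
        have h5 := hup n r hr
        have h6 := (hpow n).1
        simp only [hep]
        calc 2 * ((1 / 2) ^ n / 8) * Sop k (W n).1 r ≤ 2 * ((1 / 2) ^ n / 8) * (2 * M0) := by gcongr
          _ = M0 / 2 * (1 / 2) ^ n := by ring
      obtain ⟨l, hl⟩ := cauchySeq_tendsto_of_complete hcs
      exact ⟨l, fun _ => hl⟩
    · exact ⟨0, fun h => absurd h hr⟩
  choose Θ hΘ using hΘ
  have hep0 : Tendsto ep atTop (𝓝 0) := by
    have := tendsto_pow_atTop_nhds_zero_of_lt_one (r := (1 / 2 : ℝ)) (by norm_num) (by norm_num)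
    have h2 := this.div_const 8
    simpa [hep] using h2
  have hlim : ∀ y, ∃ l, Tendsto (fun n => (W n).1 y) atTop (𝓝 l) ∧
      (y ∈ Ioc (0 : ℝ) 1 → l = 0 ∨ l = (Θ y) ^ 2) := by
    intro y
    by_cases hy : y ∈ Ioc (0 : ℝ) 1
    · obtain ⟨K, hK⟩ : ∃ K : ℕ, ∀ n, K ≤ n → an n < y := by
        obtain ⟨K, hK⟩ := exists_pow_lt_of_lt_one hy.1 (by norm_num : (1 / 2 : ℝ) < 1)
        refine ⟨K, fun n hn => lt_of_le_of_lt ?_ hK⟩
        exact pow_le_pow_of_le_one (by norm_num) (by norm_num) (by omega)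
      by_cases hz : ∃ n, K ≤ n ∧ (W n).1 y = 0
      · obtain ⟨n, hn, hz⟩ := hz
        refine ⟨0, ?_, fun _ => Or.inl rfl⟩
        have hall : ∀ j, n ≤ j → (W j).1 y = 0 := by
          intro j hj
          induction j, hj using Nat.le_induction with
          | base => exact hz
          | succ j hj ih =>
            rcases he j y ⟨hK j (by omega), hy.2⟩ with h5 | h5
            · exact h5
            · rw [ih] at h5; exact absurd h5.1 (lt_irrefl _)
        refine tendsto_const_nhds.congr' ?_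
        filter_upwards [eventually_ge_atTop n] with j hj
        rw [hall j hj]
      · push Not at hz
        refine ⟨(Θ y) ^ 2, ?_, fun _ => Or.inr rfl⟩
        have h5 : Tendsto (fun n => (1 + ep n) * (Sop k (W n).1 y) ^ 2) atTop
            (𝓝 ((1 + 0) * (Θ y) ^ 2)) :=
          (tendsto_const_nhds.add hep0).mul ((hΘ y hy).pow 2)
        rw [add_zero, one_mul] at h5
        have h6 : Tendsto (fun n => (W (n + 1)).1 y) atTop (𝓝 ((Θ y) ^ 2)) := by
          refine h5.congr' ?_
          filter_upwards [eventually_ge_atTop K] with n hn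
          rcases he n y ⟨hK n hn, hy.2⟩ with h7 | h7
          · exact absurd h7 (hz (n + 1) (by omega))
          · exact h7.2.symm
        exact (tendsto_add_atTop_iff_nat 1).1 h6
    · refine ⟨0, ?_, fun h => absurd h hy⟩
      have : (fun n => (W n).1 y) = fun _ => 0 := by
        funext n; exact (W n).2.prof.supp y hy
      rw [this]; exact tendsto_const_nhds
  choose w hw using hlim
  have hWB : ∀ n y, (W n).1 y ≤ (2 * M0) ^ 2 := by
    intro n y
    by_cases hy : y ∈ Ioc (0 : ℝ) 1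
    · refine ((W n).2.sub y hy).trans ?_
      have h5 := hup n y hy
      have h6 := hlo n y hy
      have h7 : 0 ≤ Sop k (W n).1 y := by linarith
      gcongr
    · rw [(W n).2.prof.supp y hy]; positivity
  have hprof : Prof w := by
    refine ⟨?_, ?_, ⟨(2 * M0) ^ 2, ?_⟩, ?_⟩
    · refine measurable_of_tendsto_metrizable (f := fun n => (W n).1)
        (fun n => (W n).2.prof.meas) ?_
      rw [tendsto_pi_nhds]
      exact fun y => (hw y).1
    · intro y
      exact ge_of_tendsto' (hw y).1 (fun n => (W n).2.prof.nonneg y)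
    · intro y
      exact le_of_tendsto' (hw y).1 (fun n => hWB n y)
    · intro y hy
      refine tendsto_nhds_unique (hw y).1 ?_
      have : (fun n => (W n).1 y) = fun _ => 0 := by
        funext n; exact (W n).2.prof.supp y hy
      rw [this]; exact tendsto_const_nhds
  have hSlim : ∀ r ∈ Ioc (0 : ℝ) 1, Tendsto (fun n => Sop k (W n).1 r) atTop (𝓝 (Sop k w r)) := by
    intro r hr
    unfold Sop
    refine tendsto_integral_of_dominated_convergence (fun y => |k r y| * (2 * M0) ^ 2) ?_ ?_ ?_ ?_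
    · intro n
      have h5 : Measurable (k r) := hk.meas.comp (measurable_const.prodMk measurable_id)
      exact (h5.mul (W n).2.prof.meas).aestronglyMeasurable
    · exact ((hk.int r hr).abs).mul_const _
    · intro n
      refine Eventually.of_forall (fun y => ?_)
      rw [Real.norm_eq_abs, abs_mul, abs_of_nonneg ((W n).2.prof.nonneg y)]
      gcongr
      exact hWB n y
    · refine Eventually.of_forall (fun y => ?_)
      exact tendsto_const_nhds.mul (hw y).1
  have hΘeq : ∀ r ∈ Ioc (0 : ℝ) 1, Θ r = Sop k w r := fun r hr =>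
    tendsto_nhds_unique (hΘ r hr) (hSlim r hr)
  refine ⟨w, hprof, m, 2 * M0, hm0, ?_, ?_⟩
  · intro r hr
    exact ⟨ge_of_tendsto' (hSlim r hr) (fun n => hlo n r hr),
      le_of_tendsto' (hSlim r hr) (fun n => hup n r hr)⟩
  · intro y hy
    rw [← hΘeq y hy]
    exact (hw y).2 hy

end Pool.Agent.H329R3.PM
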