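import Pool.Agent.H329R3.PM.Final
import Pool.Agent.H329R3.PM.TaskIter
import Pool.Agent.H329R3.PM.Dist
import Pool.Agent.H329R3.PM.Der
import Pool.Agent.H595R3.PM_KInt
import Pool.Agent.H329R3.PM.TaskGrad
import Pool.Agent.H329R3.PM.TaskGrad0
import Pool.Agent.H30R3.PMOne
import Pool.Agent.H349R3.PM.MixAbs
import Pool.Agent.H245R3.PMMix
import Pool.Agent.H676R4.PMSel
import Pool.Agent.H335R3.PMStep
import Pool.Agent.H410R3.PME.Scale
import Pool.Agent.H830R3.PM.Weak
import Pool.Agent.H555R3.PMOuter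
import Pool.Agent.H329R3.PM.TaskChain

open MeasureTheory Set Filter Topology
open scoped RealInnerProductSpace

namespace Pool.Agent.H329R3.PM

theorem exists_profile0 (hRad : TaskRad) :
    ∃ (F : E 3 → ℝ) (G : E 3 → E 3), Profile F G ∧ ¬ (F =ᵐ[volume] 0) :=
  exists_profile hRad DerTask.der_ok Pool.Agent.H595R3.PMKInt.taskKInt taskGrad taskGrad0
    Pool.Agent.H555R3.PMOuter.taskOuter Pool.Agent.H30R3.PMOne.taskOne taskMixAbs
    Pool.Agent.H245R3.PMMix.taskMix Pool.Agent.H676R4.PM.taskSel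
    Pool.Agent.H335R3.PMStep.taskStep taskIter

theorem scale_all : Scale := Pool.Agent.H410R3.PME.taskScale

theorem weak_all : Weak := Pool.Agent.H830R3.PM.taskWeak scale_all taskChain

end Pool.Agent.H329R3.PM
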