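import Pool.Agent.H329R3.PM.Stmts

open MeasureTheory Set Filter Topology
open scoped RealInnerProductSpace

namespace Pool.Agent.H329R3.PM

theorem cpos : 0 < cNs 3 (3 / 4) := by
  unfold cNs
  have h1 : 0 < Real.Gamma (3 / 4 : ℝ) := Real.Gamma_pos_of_pos (by norm_num)
  have h2 : 0 < Real.Gamma ((((3 : ℕ) : ℝ) - 2 * (3 / 4)) / 2) :=
    Real.Gamma_pos_of_pos (by norm_num)
  have h3 : 0 < Real.pi ^ (((3 : ℕ) : ℝ) / 2 - 2 * (3 / 4)) := Real.rpow_pos_of_pos Real.pi_pos _
  positivity

theorem Ks_eq (x : E 3) : Ks 3 (3 / 4) x = (cNs 3 (3 / 4))⁻¹ * ‖x‖ ^ (-(3 / 2) : ℝ) := by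
  unfold Ks
  norm_num

theorem pot_eq (w : ℝ → ℝ) (x : E 3) :
    pot 3 (3 / 4) (fun y => w ‖y‖) x = (cNs 3 (3 / 4))⁻¹ * PP w x := by
  unfold pot PP
  rw [← integral_const_mul]
  refine integral_congr_ae (Eventually.of_forall fun y => ?_)
  simp only [Ks_eq]
  ring

theorem sop_const_mul (A : ℝ) (k : ℝ → ℝ → ℝ) (w : ℝ → ℝ) (r : ℝ) :
    Sop (fun r y => A * k r y) w r = A * Sop k w r := by
  unfold Sop
  rw [← integral_const_mul]
  refine integral_congr_ae (Eventually.of_forall fun y => ?_)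
  simp only
  ring

theorem sop_meas {k : ℝ → ℝ → ℝ} (hk : Measurable (fun p : ℝ × ℝ => k p.1 p.2)) {w : ℝ → ℝ}
    (hw : Measurable w) : Measurable (Sop k w) := by
  have h1 : Measurable (fun p : ℝ × ℝ => k p.1 p.2 * w p.2) := hk.mul (hw.comp measurable_snd)
  have h2 : StronglyMeasurable (Function.uncurry fun r y => k r y * w y) := by
    exact h1.stronglyMeasurable
  exact h2.integral_prod_right.measurable

theorem exists_profile (hRad : TaskRad) (hDer : TaskDer) (hKInt : TaskKInt) (hGrad : TaskGrad)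
    (hGrad0 : TaskGrad0) (hOuter : TaskOuter) (hOne : TaskOne) (hMixAbs : TaskMixAbs)
    (hMix : TaskMix) (hSel : TaskSel) (hStep : TaskStep) (hIter : TaskIter) :
    ∃ (F : E 3 → ℝ) (G : E 3 → E 3), Profile F G ∧ ¬ (F =ᵐ[volume] 0) := by
  have gr : Grad := hGrad hRad hDer hKInt
  have gr0 : Grad0 := hGrad0 hRad
  have ou : Outer := hOuter
  have one : One := hOne hKInt
  have mx : Mixing kk := hMix hMixAbs hKInt
  have it : Iter := hIter (hStep hSel)
  have hc := cpos
  set c := cNs 3 (3 / 4) with hcdef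
  set A : ℝ := 8 * Real.pi / c with hA
  have hA0 : 0 < A := by have := Real.pi_pos; positivity
  set k : ℝ → ℝ → ℝ := fun r y => A * kk r y with hk
  have kker : Ker k := by
    refine ⟨?_, ?_, ?_⟩
    · exact hKInt.1.const_mul A
    · intro r hr
      exact (hKInt.2.2 r hr.1).const_mul A
    · intro a ha δ hδ
      obtain ⟨n, hn, h⟩ := mx a ha (δ / A) (by positivity)
      refine ⟨n, hn, fun g hg r hr => ?_⟩
      have := h g hg r hr
      rw [hk, sop_const_mul, abs_mul, abs_of_pos hA0]
      calc A * |Sop kk g r| ≤ A * (δ / A) := by gcongr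
        _ = δ := by field_simp
  obtain ⟨w, hw, c1, C1, hc1, hb, hrel⟩ := it k kker ⟨A * (3 / 10), A * (3 / 2), by positivity, by
    intro r hr
    have := one r hr
    rw [hk, integral_const_mul]
    constructor <;> gcongr
    · exact this.1
    · exact this.2⟩
  have hSk : ∀ r, Sop k w r = A * Sop kk w r := fun r => sop_const_mul A kk w r
  set F : E 3 → ℝ := fun x => w ‖x‖ with hF
  set G : E 3 → E 3 := fun x => (-(1 / 2) * Sop k w ‖x‖) • x with hG
  have hpot : pot 3 (3 / 4) F = fun x => c⁻¹ * PP w x := by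
    funext x; exact pot_eq w x
  have hgrad : ∀ x, HasGradientAt (pot 3 (3 / 4) F) (G x) x := by
    intro x
    rw [hpot]
    by_cases hx : x = 0
    · subst hx
      have := gr0 w hw
      have h2 : HasGradientAt (fun x => c⁻¹ * PP w x) (c⁻¹ • (0 : E 3)) 0 := by
        rw [hasGradientAt_iff_hasFDerivAt] at this ⊢
        have h3 := this.const_mul c⁻¹
        simpa using h3
      simpa [hG] using h2
    · have := gr w hw x hx
      have h2 : HasGradientAt (fun x => c⁻¹ * PP w x)
          (c⁻¹ • ((-(4 * Real.pi) * Sop kk w ‖x‖) • x)) x := by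
        rw [hasGradientAt_iff_hasFDerivAt] at this ⊢
        have h3 := this.const_mul c⁻¹
        simpa using h3
      have h4 : c⁻¹ • ((-(4 * Real.pi) * Sop kk w ‖x‖) • x) = G x := by
        simp only [hG, smul_smul, hSk]
        congr 1
        rw [hA]
        field_simp
        ring
      rwa [h4] at h2
  have hprofile : Profile F G := by
    refine ⟨?_, ?_, ?_, ?_, ?_, ?_, ?_, hgrad, ?_⟩
    · exact hw.meas.comp measurable_norm
    · intro x; exact hw.nonneg _
    · obtain ⟨B, hB⟩ := hw.bdd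
      exact ⟨B, fun x => hB _⟩
    · intro x hx
      exact hw.supp _ (fun h => absurd h.2 (not_le.2 hx))
    · have h1 : Measurable (fun x : E 3 => Sop k w ‖x‖) :=
        (sop_meas kker.meas hw.meas).comp measurable_norm
      exact (h1.const_mul _).smul measurable_id
    · obtain ⟨C, hC⟩ := ou w hw
      refine ⟨max C1 (A * C), fun x => ?_⟩
      simp only [hG, norm_smul, Real.norm_eq_abs, abs_mul]
      rcases le_or_gt ‖x‖ 1 with h1 | h1
      · rcases eq_or_lt_of_le (norm_nonneg x) with h0 | h0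
        · rw [← h0, mul_zero]
          have := (hb 1 ⟨by norm_num, le_refl _⟩)
          exact le_max_of_le_left (by linarith)
        · have h2 := hb ‖x‖ ⟨h0, h1⟩
          have h3 : |Sop k w ‖x‖| ≤ C1 := by
            rw [abs_of_nonneg (by linarith)]; exact h2.2
          refine le_trans ?_ (le_max_left _ _)
          have h4 : |-(1 / 2 : ℝ)| = 1 / 2 := by norm_num [abs_of_pos]
          rw [h4]
          have h5 : 0 ≤ |Sop k w ‖x‖| := abs_nonneg _
          nlinarith
      · have h2 := hC ‖x‖ h1.le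
        refine le_trans ?_ (le_max_right _ _)
        rw [hSk, abs_mul, abs_of_pos hA0]
        have h4 : |-(1 / 2 : ℝ)| = 1 / 2 := by norm_num [abs_of_pos]
        rw [h4]
        have h5 : 0 ≤ |Sop kk w ‖x‖| * ‖x‖ := by positivity
        nlinarith
    · intro x
      have := (hRad w hw x).1
      have h2 := this.const_mul c⁻¹
      refine h2.congr (Eventually.of_forall fun y => ?_)
      simp only [Ks_eq, hF]
      ring
    · intro x
      by_cases hx : ‖x‖ ∈ Ioc (0 : ℝ) 1
      · rcases hrel _ hx with h1 | h1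
        · have h2 : F x = 0 := h1
          rw [h2, Real.zero_rpow (by norm_num)]
          simp
        · have h2 : F x = (Sop k w ‖x‖) ^ 2 := h1
          have h3 : 0 < Sop k w ‖x‖ := lt_of_lt_of_le hc1 (hb _ hx).1
          have h4 : (F x) ^ ((3 / 2 : ℝ) - 1) = Sop k w ‖x‖ := by
            rw [h2, show ((3 / 2 : ℝ) - 1) = 1 / 2 by norm_num, ← Real.sqrt_eq_rpow,
              Real.sqrt_sq h3.le]
          rw [h4, h2]
          simp only [hG, smul_smul]
          congr 1
          ring
      · have h2 : F x = 0 := hw.supp _ hx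
        rw [h2, Real.zero_rpow (by norm_num)]
        simp
  have hne : ¬ (F =ᵐ[volume] 0) := by
    intro h0
    have h1 : ∀ x, pot 3 (3 / 4) F x = 0 := by
      intro x
      unfold pot
      have : (fun y => Ks 3 (3 / 4) (x - y) * F y) =ᵐ[volume] (fun _ => 0) := by
        filter_upwards [h0] with y hy
        rw [hy]; simp
      rw [integral_congr_ae this]; simp
    have h2 : pot 3 (3 / 4) F = fun _ => 0 := funext h1
    set e : E 3 := EuclideanSpace.single 0 1 with he
    have hen : ‖e‖ = 1 := by simp [he]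
    have h3 := hgrad e
    rw [h2] at h3
    have h4 : HasGradientAt (fun _ : E 3 => (0 : ℝ)) 0 e := by
      rw [hasGradientAt_iff_hasFDerivAt]
      simpa using hasFDerivAt_const (0 : ℝ) e
    have h5 := h3.unique h4
    have h6 := hb 1 ⟨by norm_num, le_refl _⟩
    have h7 : G e ≠ 0 := by
      simp only [hG]
      rw [hen]
      refine smul_ne_zero ?_ ?_
      · have : 0 < Sop k w 1 := lt_of_lt_of_le hc1 h6.1
        have : -(1 / 2) * Sop k w 1 < 0 := by linarith
        exact this.ne
      · intro h8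
        rw [h8] at hen
        simp at hen
    exact h7 h5
  exact ⟨F, G, hprofile, hne⟩

theorem selfSim_le {F : E 3 → ℝ} (h0 : ∀ x, 0 ≤ F x) {B : ℝ} (hB : ∀ x, F x ≤ B) :
    ∀ x t, 0 ≤ t → selfSim F x t ≤ B := by
  intro x t ht
  unfold selfSim
  have h1 : (1 + t) ^ (-(3 / 2) : ℝ) ≤ 1 :=
    Real.rpow_le_one_of_one_le_of_nonpos (by linarith) (by norm_num)
  have h2 : 0 ≤ (1 + t) ^ (-(3 / 2) : ℝ) := Real.rpow_nonneg (by linarith) _
  calc _ ≤ 1 * F ((1 + t) ^ (-(1 / 2) : ℝ) • x) := by
        gcongr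
        exact h0 _
    _ ≤ B := by rw [one_mul]; exact hB _

theorem selfSim_supp {F : E 3 → ℝ} (hs : ∀ x, 1 < ‖x‖ → F x = 0) :
    ∀ x t, 0 ≤ t → √(1 + t) < ‖x‖ → selfSim F x t = 0 := by
  intro x t ht hx
  unfold selfSim
  rw [hs _ ?_, mul_zero]
  rw [norm_smul, Real.norm_eq_abs, abs_of_nonneg (Real.rpow_nonneg (by linarith) _),
    Real.rpow_neg (by linarith), ← Real.sqrt_eq_rpow]
  have h1 : 0 < √(1 + t) := Real.sqrt_pos.2 (by linarith)
  rw [← div_eq_inv_mul, lt_div_iff₀ h1]
  linarith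

/-- the gradient of the potential of the self-similar function is locally integrable -/
theorem grad_locInt (hScale : Scale) {F : E 3 → ℝ} {G : E 3 → E 3} (h : Profile F G) (t : ℝ)
    (ht : 0 ≤ t) :
    LocallyIntegrable (gradient (pot 3 (3 / 4) (fun y => selfSim F y t))) := by
  have h1 : gradient (pot 3 (3 / 4) (fun y => selfSim F y t)) =
      fun x => (1 + t) ^ (-(5 / 4) : ℝ) • G ((1 + t) ^ (-(1 / 2) : ℝ) • x) := by
    funext x
    exact ((hScale F G h t ht).2 x).gradient
  rw [h1]
  obtain ⟨B, hB⟩ := h.bddG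
  have hm : Measurable (fun x : E 3 => (1 + t) ^ (-(5 / 4) : ℝ) • G ((1 + t) ^ (-(1 / 2) : ℝ) • x)) :=
    (h.measG.comp (measurable_const_smul ((1 + t) ^ (-(1 / 2) : ℝ)))).const_smul
      ((1 + t) ^ (-(5 / 4) : ℝ))
  have hc : LocallyIntegrable (fun _ : E 3 => |(1 + t) ^ (-(5 / 4) : ℝ)| * B) :=
    locallyIntegrable_const _
  refine hc.mono hm.aestronglyMeasurable (Eventually.of_forall fun x => ?_)
  rw [norm_smul, Real.norm_eq_abs]
  refine (mul_le_mul_of_nonneg_left (hB _) (abs_nonneg _)).trans (le_abs_self _)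

end Pool.Agent.H329R3.PM
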